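import Pool.Agent.P.MP_a05398_ag.Final

/-! Linear charges on a facet system and the descent inequality. -/

set_option autoImplicit false
set_option linter.unusedSectionVars false
set_option linter.unusedSimpArgs false

open Finset

namespace Pool.Agent.P.MP_a05398_ag

variable {N ι : Type} [AddCommGroup N] [Fintype ι] [DecidableEq ι]

/-- The part of a point which the coordinates of a facet do not see. -/
def Fac.rs (g : Fac N ι) : N →+ N where
  toFun y := y - ∑ l, g.c y l • g.v l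
  map_zero' := by simp
  map_add' x y := by
    simp only [map_add, Pi.add_apply, add_smul, Finset.sum_add_distrib]; abel

theorem Fac.rs_apply (g : Fac N ι) (y : N) : g.rs y = y - ∑ l, g.c y l • g.v l := rfl

theorem Fac.rs_of_c {f : Fac N ι} {z : N} (h : f.c z = 0) : f.rs z = z := by
  simp [Fac.rs_apply, h]

namespace Cfg
variable (C : Cfg N ι) {f g g' : Fac N ι}

theorem c_rs (hg : C.good g) (y : N) : g.c (g.rs y) = 0 := by
  rw [Fac.rs_apply, map_sub, map_sum, sub_eq_zero]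
  simp only [map_zsmul, C.cv g hg]
  exact pi_eq_sum_univ' _

theorem c_rs' (hf : C.good f) (hg : C.good g) (y : N) : f.c (g.rs y) = 0 :=
  C.ker g f hg hf _ (C.c_rs hg y)

theorem rs_rs (hf : C.good f) (hg : C.good g) (y : N) : f.rs (g.rs y) = g.rs y :=
  Fac.rs_of_c (C.c_rs' hf hg y)

theorem rs_v (hg : C.good g) (l : ι) : g.rs (g.v l) = 0 := by
  simp [Fac.rs_apply, C.cv g hg, Pi.single_apply]

theorem rs_eq (hf : C.good f) (hg : C.good g) (y : N) :
    g.rs y = f.rs y - ∑ l, g.c y l • f.rs (g.v l) := by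
  rw [← C.rs_rs hf hg y, g.rs_apply, map_sub, map_sum]
  simp only [map_zsmul]

theorem rs_flip (hg : C.good g) (hg' : C.good g') {i : ι} (h : IsFlip g g' i) (y : N) :
    g'.rs y = g.rs y + g.c y i • g.rs (g'.v i) := by
  rw [C.rs_eq hg hg', Finset.sum_eq_single i, h.c_self]
  · simp
  · intro l _ hl
    rw [h.v_ne l hl, C.rs_v hg, smul_zero]
  · simp

theorem rs_mem (hf : C.good f) (hg : C.good g) {K : AddSubgroup N}
    (h : ∀ l, f.rs (g.v l) ∈ K) (y : N) : g.rs y ∈ K ↔ f.rs y ∈ K := by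
  rw [C.rs_eq hf hg]
  rw [sub_eq_add_neg]
  exact K.add_mem_cancel_right (K.neg_mem (K.sum_mem fun l _ => K.zsmul_mem (h l) _))

theorem wit_all (hf : C.good f) {K : AddSubgroup N} {y : N} (hy : y ∈ C.V) (h : f.rs y ∉ K)
    (g : Fac N ι) (hg : C.good g) : ∃ y ∈ C.V, g.rs y ∉ K := by
  by_contra hc
  push Not at hc
  exact h ((C.rs_mem hg hf (fun l => hc _ (C.mem f hf l)) y).2 (hc y hy))

/-- the opposite vertex has the largest level among the vertices beyond a ridge -/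
theorem lev_lt (hg : C.good g) (hg' : C.good g') {i : ι} (h : IsFlip g g' i) {x : N}
    (hx : x ∈ C.V) (hneg : g.c x i < 0) (hne : x ≠ g'.v i) : g.lev x + 1 ≤ g.lev (g'.v i) := by
  have h1 := C.flip_ineq hg hg' h hx hneg hne
  have h2 := C.flip_lev_le hg hg' h
  nlinarith

theorem not_mem_flip' {i : ι} (h : IsFlip g g' i) {x : N} (hx : ∀ j, x ≠ g.v j)
    (hne : x ≠ g'.v i) (j : ι) : x ≠ g'.v j := by
  by_cases hj : j = i
  · rw [hj]; exact hne
  · rw [h.v_ne j hj]; exact hx j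

theorem step' (hg : C.good g) {s t : ι} (hst : t ≠ s) {u : N}
    (hu : u ∈ C.V) (hc : g.c u = Pi.single t 1 - Pi.single s 1) :
    ∃ g', C.good g' ∧ IsFlip g g' s ∧ g'.v s = u ∧ (∀ x, g'.c x t = g.c x t + g.c x s) ∧
      (∀ x l, l ≠ s → l ≠ t → g'.c x l = g.c x l) ∧ ∀ x, g'.lev x = g.lev x - g.c x s := by
  obtain ⟨g', hg', h⟩ := C.flip g hg s
  have h0 : g.lev u = 0 := by simp [Fac.lev, hc, Finset.sum_sub_distrib]
  have e : u = g'.v s := C.eq_flip_of_lev_zero hg hg' h hu (by rw [hc]; simp [hst.symm]) h0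
  refine ⟨g', hg', h, e.symm, fun x => ?_, fun x l h1 h2 => ?_, fun x => ?_⟩
  · rw [h.c_ne x t hst, ← e, hc]; simp [hst]
  · rw [h.c_ne x l h1, ← e, hc]; simp [h1, h2]
  · rw [h.lev_eq, ← e, h0]; ring

theorem exists_neg (hg : C.good g) {y : N} (hy : y ∈ C.V) (hn : ∀ i, y ≠ g.v i) :
    ∃ i, g.c y i < 0 := by
  by_contra hc
  push Not at hc
  have := Cfg.lev_pos_of_nonneg hc (C.nz g hg y hy)
  have := C.lev_le g hg y hy hn
  omega

end Cfg

open Classical in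
/-- A family of linear charges. -/
structure LC (C : Cfg N ι) (σ : Type) [Fintype σ] where
  K : σ → AddSubgroup N
  star : ∀ g, C.good g → ∀ y ∈ C.V, (∀ i, y ≠ g.v i) →
    ((univ.filter fun s => g.rs y ∉ K s).card : ℤ) ≤ -g.lev y
  wit : ∀ s g, C.good g → ∃ y ∈ C.V, g.rs y ∉ K s

namespace LC
variable {C : Cfg N ι} {σ : Type} [Fintype σ] (L : LC C σ) {g g' : Fac N ι}

open Classical in
/-- the number of charges which see `y` from `g` -/
noncomputable def ch (g : Fac N ι) (y : N) : ℕ := (univ.filter fun s => g.rs y ∉ L.K s).card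

/-- the unused depth of `y` -/
noncomputable def sv (g : Fac N ι) (y : N) : ℤ := -g.lev y - L.ch g y

theorem sv_nonneg (hg : C.good g) {y : N} (hy : y ∈ C.V) (hn : ∀ i, y ≠ g.v i) :
    0 ≤ L.sv g y := by
  have := L.star g hg y hy hn
  unfold sv ch
  omega

theorem ch_pos {y : N} {s : σ} (h : g.rs y ∉ L.K s) : 1 ≤ L.ch g y := by
  classical
  exact Finset.card_pos.2 ⟨s, by simpa using h⟩

theorem mem_of_lev_zero (hg : C.good g) {y : N} (hy : y ∈ C.V) (h0 : g.lev y = 0) (s : σ) :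
    g.rs y ∈ L.K s := by
  by_contra h
  have h1 := L.ch_pos h
  have h2 := L.sv_nonneg hg hy fun i e => by rw [e, C.lev_v hg] at h0; omega
  unfold sv at h2
  omega

theorem eq_of_lev_neg_one (hg : C.good g) {y : N} (hy : y ∈ C.V) (h0 : g.lev y = -1) {s t : σ}
    (hs : g.rs y ∉ L.K s) (ht : g.rs y ∉ L.K t) : s = t := by
  classical
  have h2 := L.sv_nonneg hg hy fun i e => by rw [e, C.lev_v hg] at h0; omega
  have h3 : L.ch g y ≤ 1 := by unfold sv at h2; omega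
  exact Finset.card_le_one.1 h3 s (by simpa using hs) t (by simpa using ht)

theorem ch_flip (hg : C.good g) (hg' : C.good g') {i : ι} (h : IsFlip g g' i) (y : N) :
    L.ch g y ≤ L.ch g' y + L.ch g (g'.v i) := by
  classical
  refine le_trans (Finset.card_le_card fun s hs => ?_) (Finset.card_union_le _ _)
  simp only [mem_union, mem_filter, mem_univ, true_and] at hs ⊢
  by_contra hc
  push Not at hc
  rw [C.rs_flip hg hg' h] at hc
  exact hs (((L.K s).add_mem_cancel_right ((L.K s).zsmul_mem hc.2 _)).1 hc.1)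

/-- the descent inequality -/
theorem desc (hg : C.good g) (hg' : C.good g') {i : ι} (h : IsFlip g g' i) {y : N}
    (hc : g.c y i < 0) : L.sv g' y - g.c y i + L.sv g (g'.v i) ≤ L.sv g y := by
  have h1 := L.ch_flip hg hg' h y
  have h2 := C.flip_lev_le hg hg' h
  have h3 : 0 ≤ (g.c y i + 1) * g.lev (g'.v i) := mul_nonneg_of_nonpos_of_nonpos (by omega) h2
  unfold sv
  rw [h.lev_eq]
  nlinarith

theorem sv_w (hg : C.good g) (hg' : C.good g') {i : ι} (h : IsFlip g g' i) :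
    0 ≤ L.sv g (g'.v i) :=
  L.sv_nonneg hg (C.mem g' hg' i) (C.ne_v_of_neg hg (i := i) (by rw [h.neg]; omega))

theorem desc0 (hg : C.good g) (hg' : C.good g') {i : ι} (h : IsFlip g g' i) {y : N}
    (hc : g.c y i ≤ 0) : L.sv g' y - g.c y i ≤ L.sv g y := by
  rcases hc.lt_or_eq with h1 | h1
  · have := L.desc hg hg' h h1
    have := L.sv_w hg hg' h
    omega
  · have e : g'.rs y = g.rs y := by rw [C.rs_flip hg hg' h, h1, zero_smul, add_zero]
    unfold sv ch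
    rw [h.lev_eq, e, h1]
    simp

theorem ts (hg : C.good g) (hg' : C.good g') {i : ι} (h : IsFlip g g' i) {y : N} (hy : y ∈ C.V)
    (hc : g.c y i < 0) (hne : y ≠ g'.v i) : -g.c y i ≤ L.sv g y := by
  have h1 := L.desc0 hg hg' h hc.le
  have h2 := L.sv_nonneg hg' hy (C.not_mem_flip hg h hc hne)
  omega

theorem ts2 (hg : C.good g) {i : ι} {y : N} (hy : y ∈ C.V) (hc : g.c y i ≤ -2) :
    2 ≤ L.sv g y := by
  obtain ⟨g', hg', h⟩ := C.flip g hg i
  have := L.ts hg hg' h hy (by omega) (fun e => by rw [e, h.neg] at hc; omega)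
  omega

/-- flips along several roots add up -/
theorem add_lemma (φ : ι → ι) (u : ι → N) {y : N} (I : Finset ι) :
    ∀ g, C.good g → (∀ i, y ≠ g.v i) →
    (∀ j ∈ I, φ j ≠ j ∧ u j ∈ C.V ∧ y ≠ u j ∧ g.c (u j) = Pi.single (φ j) 1 - Pi.single j 1 ∧
      g.c y j < 0) →
    ∃ g', C.good g' ∧ (∀ i, y ≠ g'.v i) ∧ (∀ x, (∀ j ∈ I, g.c x j = 0) → g'.c x = g.c x) ∧
      (∀ l, l ∉ I → g'.c y l ≤ g.c y l) ∧ ∑ j ∈ I, -g.c y j + 2 * L.sv g' y ≤ 2 * L.sv g y ∧
      (∑ j ∈ I, -g.c y j + min (∑ j ∈ I, -g.c y j) 2 + 2 * L.sv g' y ≤ 2 * L.sv g y ∨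
        ∃ i ∈ I, g'.c y i ≤ -2) := by
  induction I using Finset.strongInduction with
  | H I ih =>
  intro g hg hn hI
  rcases I.eq_empty_or_nonempty with rfl | hne
  · exact ⟨g, hg, hn, fun _ _ => rfl, fun _ _ => le_rfl, by simp, Or.inl (by simp)⟩
  have key : ∀ j ∈ I, ∀ I' ⊆ I, j ∉ I' → (∀ i ∈ I', φ i ≠ j) → ∃ g1 g' : Fac N ι, C.good g' ∧
      (∀ i, y ≠ g'.v i) ∧ (∀ x, (∀ j ∈ I, g.c x j = 0) → g'.c x = g.c x) ∧
      (∀ l, l ≠ j → g1.c y l ≤ g.c y l) ∧ g1.c y (φ j) = g.c y (φ j) + g.c y j ∧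
      (∀ l, l ∉ I' → g'.c y l ≤ g1.c y l) ∧
      ∑ i ∈ I', -g1.c y i + 2 * L.sv g' y + 2 * -g.c y j ≤ 2 * L.sv g y ∧
      (∑ i ∈ I', -g1.c y i + min (∑ i ∈ I', -g1.c y i) 2 + 2 * L.sv g' y + 2 * -g.c y j ≤
        2 * L.sv g y ∨ ∃ i ∈ I', g'.c y i ≤ -2) := by
    intro j hj I' hs hjI hφ
    obtain ⟨a1, a2, a3, a4, a5⟩ := hI j hj
    obtain ⟨g1, hg1, hf, e1, e2, e3, -⟩ := C.step' hg a1 a2 a4
    have hz : ∀ x, g.c x j = 0 → g1.c x = g.c x := fun x hx => funext fun l => by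
      by_cases h1 : l = j
      · rw [h1, hf.c_self, hx, neg_zero]
      · rw [hf.c_ne x l h1, hx, zero_mul, add_zero]
    have hle : ∀ l, l ≠ j → g1.c y l ≤ g.c y l := fun l h1 => by
      by_cases h2 : l = φ j
      · rw [h2, e2]; omega
      · rw [e3 y l h1 h2]
    obtain ⟨g', b1, b2, b3, b4, b5, b6⟩ := ih I' (Finset.ssubset_iff_subset_ne.2
      ⟨hs, fun e => hjI (e ▸ hj)⟩) g1 hg1 (Cfg.not_mem_flip' hf hn (by rw [e1]; exact a3))
      (fun i hi => by
        obtain ⟨c1, c2, c3, c4, c5⟩ := hI i (hs hi)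
        have hij : i ≠ j := fun e => hjI (e ▸ hi)
        refine ⟨c1, c2, c3, ?_, lt_of_le_of_lt (hle i hij) c5⟩
        rw [hz _ (by rw [c4]; simp [(hφ i hi).symm, hij.symm]), c4])
    have hd := L.desc0 hg hg1 hf a5.le
    refine ⟨g1, g', b1, b2, fun x hx => ?_, hle, e2 y, b4, by omega, b6.imp_left fun h => by omega⟩
    rw [b3 x fun i hi => by rw [hz x (hx j hj)]; exact hx i (hs hi), hz x (hx j hj)]
  have mono : ∀ j, ∀ I' ⊆ I, j ∉ I' → ∀ g1 : Fac N ι, (∀ l, l ≠ j → g1.c y l ≤ g.c y l) →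
      ∑ i ∈ I', -g.c y i ≤ ∑ i ∈ I', -g1.c y i := fun j I' _ hj g1 h =>
    Finset.sum_le_sum fun i hi => neg_le_neg (h i fun e => hj (e ▸ hi))
  by_cases hsrc : ∃ j ∈ I, ∀ i ∈ I, φ i ≠ j
  · obtain ⟨j, hj, hφ⟩ := hsrc
    obtain ⟨g1, g', b1, b2, b3, b4, -, b5, b6, b7⟩ := key j hj (I.erase j) (erase_subset _ _)
      (notMem_erase _ _) fun i hi => hφ i (mem_of_mem_erase hi)
    have h1 := mono j _ (erase_subset _ _) (notMem_erase _ _) g1 b4
    have h2 := Finset.add_sum_erase I (fun i => -g.c y i) hj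
    have h3 := (hI j hj).2.2.2.2
    refine ⟨g', b1, b2, b3, fun l hl => ?_, by omega, b7.imp (fun h => by omega)
      fun ⟨i, hi, h⟩ => ⟨i, mem_of_mem_erase hi, h⟩⟩
    exact (b5 l fun h => hl (mem_of_mem_erase h)).trans (b4 l fun e => hl (e ▸ hj))
  · push Not at hsrc
    have hsub : I ⊆ I.image φ := fun j hj => Finset.mem_image.2 (hsrc j hj)
    have himg : I = I.image φ := Finset.eq_of_subset_of_card_le hsub Finset.card_image_le
    have hinj : Set.InjOn φ I := Finset.card_image_iff.1 (by rw [← himg])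
    obtain ⟨j, hj, hmax⟩ := Finset.exists_max_image I (fun i => -g.c y i) hne
    obtain ⟨i₀, hi₀, hφ⟩ := hsrc j hj
    have hij : i₀ ≠ j := fun e => (hI i₀ hi₀).1 (hφ.trans e.symm)
    have hs : (I.erase j).erase i₀ ⊆ I := (erase_subset _ _).trans (erase_subset _ _)
    have hjI : j ∉ (I.erase j).erase i₀ := fun h => notMem_erase _ _ (mem_of_mem_erase h)
    obtain ⟨g1, g', b1, b2, b3, b4, b8, b5, b6, b7⟩ := key j hj _ hs hjI fun i hi e =>
      ne_of_mem_erase hi (hinj (hs hi) hi₀ (e.trans hφ.symm))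
    have h1 := mono j _ hs hjI g1 b4
    have h2 := Finset.add_sum_erase I (fun i => -g.c y i) hj
    have h2' := Finset.add_sum_erase (I.erase j) (fun i => -g.c y i) (mem_erase.2 ⟨hij, hi₀⟩)
    have h3 := (hI j hj).2.2.2.2
    have h4 := hmax i₀ hi₀
    have hφj : φ j ∈ I := by rw [himg]; exact Finset.mem_image_of_mem _ hj
    have h5 := (hI _ hφj).2.2.2.2
    refine ⟨g', b1, b2, b3, fun l hl => ?_, by omega, ?_⟩
    · exact (b5 l fun h => hl (hs h)).trans (b4 l fun e => hl (e ▸ hj))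
    by_cases h6 : φ j = i₀
    · refine Or.inr ⟨i₀, hi₀, ?_⟩
      have := b5 i₀ (notMem_erase _ _)
      rw [h6] at b8 h5
      omega
    · have h7 : -g1.c y (φ j) ≤ ∑ i ∈ (I.erase j).erase i₀, -g1.c y i :=
        Finset.single_le_sum (f := fun i => -g1.c y i) (fun i hi => by
          have := b4 i fun e => hjI (e ▸ hi)
          have := (hI i (hs hi)).2.2.2.2
          omega) (mem_erase.2 ⟨h6, mem_erase.2 ⟨(hI j hj).1, hφj⟩⟩)
      exact b7.imp (fun h => by omega) fun ⟨i, hi, h⟩ => ⟨i, hs hi, h⟩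

/-- two flips through a root and the negative of a vertex -/
theorem dbl (hg : C.good g) {j q : ι} (hq : q ≠ j) {u n : N} (hu : u ∈ C.V) (hn : n ∈ C.V)
    (cu : g.c u = Pi.single q 1 - Pi.single j 1) (cn : g.c n = -Pi.single j 1) :
    ∃ G, C.good G ∧ (∀ x l, l ≠ j → l ≠ q → G.c x l = g.c x l) ∧
      (∀ x, g.c x j = 0 → g.c x q = 0 → G.c x = g.c x) ∧
      (∀ x, G.lev x = g.lev x - 2 * g.c x j - g.c x q) ∧
      ∀ y, (∀ i, y ≠ g.v i) → y ≠ u → y ≠ n → g.c y j ≤ 0 → g.c y q < 0 →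
        (∀ i, y ≠ G.v i) ∧ L.sv G y + 1 ≤ L.sv g y := by
  obtain ⟨g1, hg1, hf, e1, e2, e3, e4⟩ := C.step' hg hq hu cu
  obtain ⟨G, hG, hf', d1, d2, d3, d4⟩ := C.step' hg1 hq.symm hn (by
    funext l
    by_cases a1 : l = j
    · rw [a1, hf.c_self, cn]; simp [hq.symm]
    · by_cases a2 : l = q
      · rw [a2, e2, cn]; simp [hq]
      · rw [e3 n l a1 a2, cn]; simp [a1, a2])
  have hl : ∀ x l, l ≠ j → l ≠ q → G.c x l = g.c x l := fun x l a1 a2 => by
    rw [d3 x l a2 a1, e3 x l a1 a2]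
  refine ⟨G, hG, hl, fun x a1 a2 => funext fun l => ?_, fun x => by rw [d4, e4, e2]; ring,
    fun y a1 a2 a3 a4 a5 => ⟨Cfg.not_mem_flip' hf' (Cfg.not_mem_flip' hf a1 (by rwa [e1]))
      (by rwa [d1]), ?_⟩⟩
  · by_cases b1 : l = j
    · rw [b1, d2, hf.c_self, e2, a1, a2]; rfl
    · by_cases b2 : l = q
      · rw [b2, hf'.c_self, e2, a1, a2]; rfl
      · exact hl x l b1 b2
  · have h1 := L.desc0 hg hg1 hf a4
    have h2 := L.desc0 hg1 hG hf' (y := y) (by rw [e2]; omega)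
    rw [e2] at h2
    omega

theorem q_lemma (φ : ι → ι) (u n : ι → N) {y : N} (J : Finset ι) :
    ∀ g, C.good g → (∀ i, y ≠ g.v i) → Set.InjOn φ J →
    (∀ j ∈ J, φ j ∉ J ∧ u j ∈ C.V ∧ n j ∈ C.V ∧ y ≠ u j ∧ y ≠ n j ∧
      g.c (u j) = Pi.single (φ j) 1 - Pi.single j 1 ∧ g.c (n j) = -Pi.single j 1 ∧
      g.c y j ≤ 0 ∧ g.c y (φ j) < 0) →
    ∃ G, C.good G ∧ (∀ i, y ≠ G.v i) ∧ (∀ l, (∀ j ∈ J, l ≠ j ∧ l ≠ φ j) → G.c y l = g.c y l) ∧
      L.sv G y + J.card ≤ L.sv g y := by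
  induction J using Finset.induction_on with
  | empty => exact fun g hg hn _ _ => ⟨g, hg, hn, fun _ _ => rfl, by simp⟩
  | insert j J hj ih =>
    intro g hg hn hinj hJ
    obtain ⟨a1, a2, a3, a4, a5, a6, a7, a8, a9⟩ := hJ j (mem_insert_self _ _)
    obtain ⟨G1, hG1, b1, b2, -, b4⟩ := L.dbl hg (j := j) (q := φ j)
      (fun e => a1 (by rw [e]; exact mem_insert_self _ _)) a2 a3 a6 a7
    obtain ⟨b5, b6⟩ := b4 y hn a4 a5 a8 a9
    obtain ⟨G, hG, c1, c2, c3⟩ := ih G1 hG1 b5 (hinj.mono (by simp)) fun i hi => by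
      obtain ⟨d1, d2, d3, d4, d5, d6, d7, d8, d9⟩ := hJ i (mem_insert_of_mem hi)
      have n1 : i ≠ j := fun e => hj (e ▸ hi)
      have n2 : i ≠ φ j := fun e => a1 (e ▸ mem_insert_of_mem hi)
      have n3 : φ i ≠ j := fun e => d1 (e ▸ mem_insert_self _ _)
      have n4 : φ i ≠ φ j := fun e => n1 (hinj (by simp [hi]) (by simp) e)
      refine ⟨fun h => d1 (mem_insert_of_mem h), d2, d3, d4, d5, ?_, ?_, ?_, ?_⟩
      · rw [b2 _ (by simp [d6, n1.symm, n3.symm]) (by simp [d6, n2.symm, n4.symm]), d6]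
      · rw [b2 _ (by simp [d7, n1.symm]) (by simp [d7, n2.symm]), d7]
      · rwa [b1 y i n1 n2]
      · rwa [b1 y _ n3 n4]
    refine ⟨G, hG, c1, fun l hl => ?_, by rw [card_insert_of_notMem hj]; push_cast; omega⟩
    rw [c2 l fun i hi => hl i (mem_insert_of_mem hi),
      b1 y l (hl j (mem_insert_self _ _)).1 (hl j (mem_insert_self _ _)).2]

end LC

end Pool.Agent.P.MP_a05398_ag
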