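import Pool.Agent.P.MP_a05398_ag.St.Chg

/-! The discharging argument at a special facet. -/

set_option autoImplicit false
set_option linter.unusedSectionVars false
set_option linter.unusedSimpArgs false

open Finset

namespace Pool.Agent.P.MP_a05398_ag

variable {N ι : Type} [AddCommGroup N] [Fintype ι] [DecidableEq ι]

namespace Chg
variable {C : Cfg N ι} {F : Fac N ι} (D : Chg C F Empty)

/-- the slots whose opposite vertex is a root -/
noncomputable def SS : Finset ι :=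
  univ.filter fun j => F.lev (D.w j) = 0 ∧ (D.NW (D.w j)).card = 1

theorem eq_of_NW {j l : ι} (hj : j ∈ D.SS) (h : D.w l = D.w j) : l = j :=
  Finset.card_le_one.1 (mem_filter.1 hj).2.2.le l (D.mem_NW.2 h) j (D.mem_NW.2 rfl)

theorem exists_tg (j : ι) : ∃ q, j ∈ D.SS →
    q ≠ j ∧ F.c (D.w j) = Pi.single q 1 - Pi.single j 1 := by
  by_cases hj : j ∈ D.SS
  · obtain ⟨q, h⟩ := eq_single_sub (g := F.c (D.w j)) (D.w_neg j) (fun l hl =>
      D.nonneg_of_not_NW (D.w_mem j) (mem_filter.1 hj).2.1 fun h =>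
        hl (D.eq_of_NW hj (D.mem_NW.1 h))) (mem_filter.1 hj).2.1
    exact ⟨q, fun _ => h⟩
  · exact ⟨j, fun h => absurd h hj⟩

/-- the positive slot of the root -/
noncomputable def tg (j : ι) : ι := (D.exists_tg j).choose

theorem tg_ne {j : ι} (hj : j ∈ D.SS) : D.tg j ≠ j := ((D.exists_tg j).choose_spec hj).1

theorem tg_c {j : ι} (hj : j ∈ D.SS) : F.c (D.w j) = Pi.single (D.tg j) 1 - Pi.single j 1 :=
  ((D.exists_tg j).choose_spec hj).2

theorem apair {j : ι} (hj : j ∈ D.SS) {n : N} (hn : n ∈ C.V) (cn : F.c n = -Pi.single j 1) :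
    D.APair n j (D.tg j) := ⟨hn, D.tg_ne hj, cn, D.tg_c hj⟩

theorem tg_notMem (PF : ∀ i p, ¬ Pent C F i p) {j : ι} (hj : j ∈ D.SS) {n : N} (hn : n ∈ C.V)
    (cn : F.c n = -Pi.single j 1) : D.tg j ∉ D.SS := fun hq => by
  have h1 := (D.apair hj hn cn).pos_of_lev_zero (mem_filter.1 hq).2.1
  have h2 := D.tg_c hq
  have h3 : D.tg (D.tg j) = j := by
    by_contra hc
    rw [h2] at h1
    simp [Ne.symm hc, (D.tg_ne hj).symm] at h1
  rw [h3] at h2
  exact PF j (D.tg j) ⟨D.tg_ne hj, _, D.w_mem j, _, D.w_mem _, n, hn, D.tg_c hj, h2, cn⟩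

theorem tg_inj {i j : ι} (hi : i ∈ D.SS) (hj : j ∈ D.SS) {n m : N} (hn : n ∈ C.V) (hm : m ∈ C.V)
    (cn : F.c n = -Pi.single i 1) (cm : F.c m = -Pi.single j 1) (h : D.tg i = D.tg j) : i = j := by
  have e := (D.apair hi hn cn).unique (h ▸ D.apair hj hm cm)
  rw [e, cm] at cn
  have := congrFun cn i
  by_contra hc
  simp [hc] at this

/-- a slot which has no slack of its own -/
structure Tight (j : ι) : Prop where
  mem : j ∈ D.SS
  ex : ∃ n ∈ C.V, F.c n = -Pi.single j 1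
  neg : ∀ x ∈ C.V, F.c x j < 0 → x = D.w j ∨ F.c x = -Pi.single j 1
  pos : ∀ x ∈ C.V, ∀ x' ∈ C.V, (∀ i, x ≠ F.v i) → (∀ i, x' ≠ F.v i) → 0 < F.c x j →
    0 < F.c x' j → x = x'

theorem w_ne_v (l i : ι) : D.w l ≠ F.v i :=
  C.ne_v_of_neg D.hF (i := l) (by rw [D.w_neg]; omega) i

variable {σ : Type} [Fintype σ] (L : LC C σ)

theorem ts {y : N} (hy : y ∈ C.V) {l : ι} (hl : F.c y l < 0) (hne : y ≠ D.w l) :
    -F.c y l ≤ L.sv F y := L.ts D.hF (D.fl_good l) (D.fl_flip l) hy hl hne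

theorem lemE {y : N} (hy : y ∈ C.V) {l : ι} (hl : F.c y l < 0) (hne : y ≠ D.w l)
    (hs : L.sv F y ≤ 1) : F.c y l = -1 ∧ L.sv F (D.w l) ≤ 0 ∧
      ∀ t, t ≠ l → F.c (D.w l) t ≤ F.c y t + 1 := by
  have h1 := D.ts L hy hl hne
  have h2 := L.desc D.hF (D.fl_good l) (D.fl_flip l) hl
  have h3 := L.sv_nonneg (D.fl_good l) hy (C.not_mem_flip D.hF (D.fl_flip l) hl hne)
  have h4 := L.sv_w D.hF (D.fl_good l) (D.fl_flip l)
  have h5 : F.c y l = -1 := by omega
  refine ⟨h5, by change L.sv F ((D.fl l).v l) ≤ 0; omega, fun t ht => ?_⟩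
  by_contra hc
  have := L.ts2 (D.fl_good l) (i := t) hy (by rw [D.fl_c l y ht, h5]; omega)
  omega

theorem lev_lt {x : N} (hx : x ∈ C.V) {l : ι} (hl : F.c x l < 0) (hne : x ≠ D.w l) :
    F.lev x + 1 ≤ F.lev (D.w l) := C.lev_lt D.hF (D.fl_good l) (D.fl_flip l) hx hl hne

theorem other_neg {y : N} (hy : y ∈ C.V) {j : ι} (h1 : F.c y j = -1) (hne : y ≠ D.w j)
    (hA : F.c y ≠ -Pi.single j 1) : ∃ l, l ≠ j ∧ F.c y l < 0 := by
  by_contra hc
  push Not at hc
  exact hA (eq_neg_single h1 hc (D.lev_le_neg_one hy (l := j) (by omega) hne))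

theorem case3 {y : N} (hy : y ∈ C.V) (hW : ∀ l, y ≠ D.w l) {j : ι} (hj : j ∈ D.SS)
    (hyj : F.c y j < 0) (hA : F.c y ≠ -Pi.single j 1) : 2 ≤ L.sv F y := by
  by_contra hs
  have y1 := (D.lemE L hy hyj (hW j) (by omega)).1
  obtain ⟨l, hl, yl⟩ := D.other_neg hy y1 (hW j) hA
  obtain ⟨y2, -, hE⟩ := D.lemE L hy yl (hW l) (by omega)
  have w0 : F.lev (D.w j) = 0 := (mem_filter.1 hj).2.1
  have wl : 0 ≤ F.c (D.w j) l := D.w_nonneg w0 fun e => hl (D.eq_of_NW hj e.symm)
  have h1 := L.desc0 D.hF (D.fl_good j) (D.fl_flip j) hyj.le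
  obtain ⟨g, hg, hf⟩ := C.flip _ (D.fl_good j) l
  have c1 := D.fl_c j y hl
  have e : y = g.v l := by
    by_contra hne
    have := L.ts (D.fl_good j) hg hf hy (by rw [c1, y1]; omega) hne
    rw [c1, y1] at this
    omega
  have c2 := hf.neg
  rw [← e, c1, y1, y2] at c2
  have h2 := C.lev_lt (D.fl_good j) hg hf (D.w_mem l)
    (by rw [D.fl_c j _ hl, D.w_neg, show F.c (D.w j) l = 0 by omega]; omega)
    (by rw [← e]; exact (hW l).symm)
  rw [← e, D.fl_lev, D.fl_lev, w0, y1] at h2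
  have h3 := D.lev_lt hy yl (hW l)
  have h4 := hE j hl.symm
  omega

theorem case4 (PF : ∀ g, C.good g → ∀ i p, ¬ Pent C g i p) {y : N} (hy : y ∈ C.V)
    (hW : ∀ l, y ≠ D.w l) {j : ι} (hj : D.Tight j) (yq : F.c y (D.tg j) < 0) (yj : F.c y j = 0) :
    2 ≤ L.sv F y := by
  by_contra hs
  obtain ⟨n, hn, cn⟩ := hj.ex
  have A := D.apair hj.mem hn cn
  set q := D.tg j with hq
  have hqj : q ≠ j := A.ne
  have neg0 : ∀ x ∈ C.V, ∀ l, l ≠ j → F.c x l < 0 → 0 ≤ F.c x j := fun x hx l hl h => by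
    by_contra hc
    rcases hj.neg x hx (by omega) with e | e
    · rw [e, A.cw] at h
      simp only [Pi.sub_apply, Pi.single_apply, hl, if_false] at h
      split_ifs at h <;> omega
    · simp [e, hl] at h
  obtain ⟨y1, x0, hE⟩ := D.lemE L hy yq (hW q) (by omega)
  obtain ⟨G, hG, g1, -, g3, g4⟩ := L.dbl D.hF hqj (D.w_mem j) hn A.cw cn
  have xq := D.w_neg q
  have xj : F.c (D.w q) j = 1 := by
    have a1 := neg0 _ (D.w_mem q) q hqj (by omega)
    have a2 := hE j hqj.symm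
    by_contra hc
    have a3 : F.c (D.w q) j = 0 := by omega
    obtain ⟨b1, b2⟩ := g4 (D.w q) (D.w_ne_v q) (fun e => by rw [e, D.w_neg] at a3; omega)
      (fun e => by simp [e, cn] at a3) a3.le (by omega)
    have := L.sv_nonneg hG (D.w_mem q) b1
    omega
  by_cases hA : F.c y = -Pi.single q 1
  · have ext : ∀ {x : N} {v : ι → ℤ}, -F.c x j = v j → F.c x q + F.c x j = v q →
        (∀ l, l ≠ j → l ≠ q → F.c x l = v l) → (D.fl j).c x = v := fun {x v} a b c =>
      funext fun l => by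
        by_cases h1 : l = j
        · rw [h1, (D.fl_flip j).c_self, a]
        · by_cases h2 : l = q
          · rw [h2, A.fl_cp, b]
          · rw [A.fl_c x h1 h2, c l h1 h2]
    exact PF _ (D.fl_good j) q j ⟨hqj.symm, n, hn, F.v j, C.mem F D.hF j, y, hy,
      ext (by simp [cn, hqj.symm]) (by simp [cn, hqj]) (fun l a b => by simp [cn, a, b]),
      ext (by simp [C.cv F D.hF, hqj.symm]) (by simp [C.cv F D.hF, hqj])
        (fun l a b => by simp [C.cv F D.hF, a, b]),
      ext (by simp [hA, hqj.symm]) (by simp [hA, hqj.symm]) (fun l a b => by simp [hA])⟩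
  obtain ⟨l, hlq, yl⟩ := D.other_neg hy y1 (hW q) hA
  have hlj : l ≠ j := fun e => by rw [e] at yl; omega
  obtain ⟨y2, -, hE'⟩ := D.lemE L hy yl (hW l) (by omega)
  obtain ⟨b1, b2⟩ := g4 y (C.ne_v_of_neg D.hF yl) (hW j) (fun e => by simp [e, cn] at yj) yj.le yq
  obtain ⟨g, hg, hf⟩ := C.flip _ hG l
  have e : y = g.v l := by
    by_contra hne
    have := L.ts hG hg hf hy (by rw [g1 y l hlj hlq]; omega) hne
    rw [g1 y l hlj hlq] at this
    omega
  have h2 := C.lev_lt hG hg hf (D.w_mem l) (by rw [g1 _ l hlj hlq, D.w_neg]; omega)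
    (by rw [← e]; exact (hW l).symm)
  rw [← e, g3, g3, yj, y1] at h2
  have h3 := D.lev_lt hy yl (hW l)
  have h4 := hE' q hlq.symm
  have e2 : D.w l = D.w q := hj.pos _ (D.w_mem l) _ (D.w_mem q) (D.w_ne_v l) (D.w_ne_v q)
    (by omega) (by omega)
  have xl := D.w_neg l
  rw [e2] at h2 h3 xl
  obtain ⟨g', hg', hf'⟩ := C.flip _ (D.fl_good j) l
  have ly := A.fl_lev y
  have lx := A.fl_lev (D.w q)
  have h5 : F.lev y + 1 ≤ (D.fl j).lev (g'.v l) := by
    by_cases e3 : y = g'.v l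
    · have := C.lev_lt (D.fl_good j) hg' hf' (D.w_mem q) (by rw [A.fl_c _ hlj hlq]; omega)
        (by rw [← e3]; exact (hW q).symm)
      omega
    · have := C.lev_lt (D.fl_good j) hg' hf' hy (by rw [A.fl_c _ hlj hlq]; omega) e3
      omega
  have c3 := hf'.neg
  rw [A.fl_c _ hlj hlq] at c3
  have h6 := D.lev_lt (C.mem g' hg' l) (l := l) (by omega) (fun e3 => by
    rw [e3, e2] at h5; omega)
  have h7 := neg0 _ (C.mem g' hg' l) l hlj (by omega)
  rw [e2] at h6
  rw [A.fl_lev] at h5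
  omega

open Classical in
/-- the slots for which `y` has to pay -/
noncomputable def QQ (y : N) : Finset ι :=
  univ.filter fun j => D.Tight j ∧ F.c y (D.tg j) < 0 ∧ F.c y j = 0

theorem loc_rest (PF : ∀ g, C.good g → ∀ i p, ¬ Pent C g i p)
    (NC : ∀ p, ∀ y ∈ C.V, F.c y = -Pi.single p 1 → L.ch F y = 0) {y : N} (hy : y ∈ C.V)
    (hF : ∀ i, y ≠ F.v i) (hS : ∀ j ∈ D.SS, y ≠ D.w j) :
    ((D.QQ y).card : ℤ) + 2 + ∑ j ∈ D.SS.filter (fun j => F.c y j < 0), -F.c y j ≤
      (D.NW y).card + 2 * L.sv F y +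
        (D.SS.filter fun j => F.c y = -Pi.single j 1).card := by
  classical
  set I := D.SS.filter fun j => F.c y j < 0 with hI
  have hQ : ∀ j ∈ D.QQ y, D.Tight j ∧ F.c y (D.tg j) < 0 ∧ F.c y j = 0 := fun j hj =>
    (mem_filter.1 hj).2
  have : Nonempty N := ⟨0⟩
  choose! n hn cn using fun j (hj : j ∈ D.QQ y) => (hQ j hj).1.ex
  have qS : ∀ j ∈ D.QQ y, D.tg j ∉ D.SS := fun j hj =>
    D.tg_notMem (PF F D.hF) (hQ j hj).1.mem (hn j hj) (cn j hj)
  have dis : ∀ j ∈ D.QQ y, ∀ i ∈ I, i ≠ j ∧ i ≠ D.tg j := fun j hj i hi =>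
    ⟨fun e => by have := (mem_filter.1 hi).2; rw [e, (hQ j hj).2.2] at this; omega,
      fun e => qS j hj (e ▸ (mem_filter.1 hi).1)⟩
  obtain ⟨g, hg, a1, a2, a3, a4, a5⟩ := L.add_lemma D.tg D.w (y := y) I F D.hF hF fun j hj => by
    have := mem_filter.1 hj
    exact ⟨D.tg_ne this.1, D.w_mem j, hS j this.1, D.tg_c this.1, this.2⟩
  obtain ⟨G, hG, b1, b2, b3⟩ := L.q_lemma D.tg D.w n (y := y) (D.QQ y) g hg a1
    (fun i hi j hj e => D.tg_inj (hQ i hi).1.mem (hQ j hj).1.mem (hn i hi) (hn j hj) (cn i hi)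
      (cn j hj) e) fun j hj => by
    obtain ⟨c1, c2, c3⟩ := hQ j hj
    refine ⟨fun h => qS j hj (hQ _ h).1.mem, D.w_mem j, hn j hj, hS j c1.mem,
      fun e => by simp [e, cn j hj] at c3, ?_, ?_, ?_, ?_⟩
    · rw [a2 _ fun i hi => by simp [D.tg_c c1.mem, dis j hj i hi], D.tg_c c1.mem]
    · rw [a2 _ fun i hi => by simp [cn j hj, dis j hj i hi], cn j hj]
    · exact c3 ▸ a3 j fun h => (dis j hj j h).1 rfl
    · exact lt_of_le_of_lt (a3 _ fun h => (dis j hj _ h).2 rfl) c2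
  have s0 := L.sv_nonneg hG hy b1
  have tI : (I.card : ℤ) ≤ ∑ j ∈ I, -F.c y j := by
    rw [Finset.card_eq_sum_ones]; push_cast
    exact Finset.sum_le_sum fun j hj => by have := (mem_filter.1 hj).2; omega
  rcases a5 with a5 | ⟨i, hi, a5⟩
  swap
  · have := L.ts2 hG (i := i) hy (by rw [b2 i fun j hj => dis j hj i hi]; exact a5)
    omega
  by_contra hc
  have small : ∑ j ∈ I, -F.c y j + (D.QQ y).card + (D.NW y).card ≤ 1 := by omega
  obtain ⟨l, hl⟩ := C.exists_neg D.hF hy hF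
  by_cases hm : (D.NW y).card = 0
  · have hW : ∀ l, y ≠ D.w l := fun l e => by
      have := Finset.card_pos.2 ⟨l, D.mem_NW.2 e.symm⟩
      omega
    have h1 := D.ts L hy hl (hW l)
    rcases I.eq_empty_or_nonempty with hI0 | ⟨j, hj⟩
    · rcases (D.QQ y).eq_empty_or_nonempty with hQ0 | ⟨j, hj⟩
      · rw [hI0, hQ0] at hc
        simp only [card_empty, sum_empty] at hc
        omega
      · have := D.case4 L PF hy hW (hQ j hj).1 (hQ j hj).2.1 (hQ j hj).2.2
        omega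
    · have h2 := Finset.card_pos.2 ⟨j, hj⟩
      by_cases hA : F.c y = -Pi.single j 1
      · have : 0 < (D.SS.filter fun j => F.c y = -Pi.single j 1).card :=
          Finset.card_pos.2 ⟨j, mem_filter.2 ⟨(mem_filter.1 hj).1, hA⟩⟩
        omega
      · have := D.case3 L hy hW (mem_filter.1 hj).1 (mem_filter.1 hj).2 hA
        omega
  · have h1 : (D.NW y).card = 1 := by omega
    have h2 : L.sv F y ≤ 0 := by omega
    have h3 : ∀ t, F.c y t < 0 → D.w t = y := fun t ht => by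
      by_contra e
      have := D.ts L hy ht (Ne.symm e)
      omega
    have h4 := C.lev_le F D.hF y hy hF
    by_cases h0 : F.lev y = 0
    · exact hS l (mem_filter.2 ⟨mem_univ _, by rw [h3 l hl]; exact ⟨h0, h1⟩⟩) (h3 l hl).symm
    · have e := eq_neg_single (g := F.c y) (i := l) (by rw [← h3 l hl, D.w_neg]) (fun t ht => by
        by_contra hc2
        exact ht (Finset.card_le_one.1 h1.le t (D.mem_NW.2 (h3 t (by omega))) l
          (D.mem_NW.2 (h3 l hl)))) (by change F.lev y ≤ -1; omega)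
      have h5 := NC l y hy e
      unfold LC.sv at h2
      omega

open Classical in
theorem loc_all (PF : ∀ g, C.good g → ∀ i p, ¬ Pent C g i p)
    (NC : ∀ p, ∀ y ∈ C.V, F.c y = -Pi.single p 1 → L.ch F y = 0) {y : N} (hy : y ∈ C.V)
    (hF : ∀ i, y ≠ F.v i) :
    2 + ∑ j ∈ D.SS, ((if j ∈ D.QQ y then (1 : ℤ) else 0) + max (-F.c y j) 0 -
      (if F.c y = -Pi.single j 1 then 1 else 0) - (if y = D.w j then 2 else 0)) ≤
      (D.NW y).card + 2 * L.sv F y := by
  by_cases hS : ∀ j ∈ D.SS, y ≠ D.w j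
  · have h := D.loc_rest L PF NC hy hF hS
    have e1 : ∑ j ∈ D.SS, (if j ∈ D.QQ y then (1 : ℤ) else 0) ≤ (D.QQ y).card := by
      rw [Finset.sum_boole]
      exact Int.ofNat_le.2 (Finset.card_le_card fun j hj => (mem_filter.1 hj).2)
    have e2 : ∑ j ∈ D.SS, max (-F.c y j) 0 =
        ∑ j ∈ D.SS.filter (fun j => F.c y j < 0), -F.c y j := by
      rw [Finset.sum_filter]
      exact Finset.sum_congr rfl fun j _ => by split_ifs <;> omega
    have e3 : ∑ j ∈ D.SS, (if y = D.w j then (2 : ℤ) else 0) = 0 :=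
      Finset.sum_eq_zero fun j hj => if_neg (hS j hj)
    rw [Finset.sum_sub_distrib, Finset.sum_sub_distrib, Finset.sum_add_distrib, e2, e3,
      Finset.sum_boole (fun j => F.c y = -Pi.single j 1)]
    omega
  · push Not at hS
    obtain ⟨j, hj, rfl⟩ := hS
    have h1 := (mem_filter.1 hj).2.2
    have h2 := L.sv_nonneg D.hF hy hF
    have hQ : ∀ i, i ∉ D.QQ (D.w j) := fun i hi => by
      obtain ⟨c1, c2, -⟩ := (mem_filter.1 hi).2
      obtain ⟨n, hn, cn⟩ := c1.ex
      have := D.tg_notMem (PF F D.hF) c1.mem hn cn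
      have := D.w_nonneg (j := D.tg i) (mem_filter.1 hj).2.1 fun e =>
        this (D.eq_of_NW hj e.symm ▸ hj)
      omega
    have h3 : ∑ i ∈ D.SS, ((if i ∈ D.QQ (D.w j) then (1 : ℤ) else 0) + max (-F.c (D.w j) i) 0 -
        (if F.c (D.w j) = -Pi.single i 1 then 1 else 0) - (if D.w j = D.w i then 2 else 0)) ≤
        ∑ i ∈ D.SS, if i = j then -1 else 0 := by
      refine Finset.sum_le_sum fun i _ => ?_
      rw [if_neg (hQ i)]
      by_cases e : i = j
      · rw [e, D.w_neg, if_pos rfl, if_pos rfl]; split_ifs <;> omega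
      · have := D.w_nonneg (j := i) (mem_filter.1 hj).2.1 fun e' => e (D.eq_of_NW hj e'.symm)
        rw [if_neg e]; split_ifs <;> omega
    rw [Finset.sum_ite_eq', if_pos hj] at h3
    omega

include D L in
/-- The bound in the absence of all reducible configurations. -/
theorem core' (hspec : ∀ l, 0 ≤ ∑ x ∈ C.V, F.c x l)
    (PF : ∀ g, C.good g → ∀ i p, ¬ Pent C g i p)
    (NC : ∀ p, ∀ y ∈ C.V, F.c y = -Pi.single p 1 → L.ch F y = 0)
    (NL : ∀ j ∈ D.SS, ∃ x ∈ C.V, x ≠ F.v j ∧ x ≠ D.w j ∧ F.c x j ≠ 0) :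
    2 * C.V.card + 2 * Fintype.card σ ≤ 5 * Fintype.card ι := by
  classical
  set Fv : Finset N := univ.image F.v with hFv
  have vinj : Function.Injective F.v := fun i j h => C.v_inj D.hF (by rw [h])
  have hFc : Fv.card = Fintype.card ι := by
    rw [hFv, Finset.card_image_of_injective _ vinj, Finset.card_univ]
  have hFs : Fv ⊆ C.V := by
    intro x hx
    obtain ⟨i, -, rfl⟩ := Finset.mem_image.1 hx
    exact C.mem F D.hF i
  set U := C.V \ Fv with hU
  have memU : ∀ x, x ∈ U ↔ x ∈ C.V ∧ ∀ i, x ≠ F.v i := by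
    intro x
    simp only [hU, hFv, mem_sdiff, mem_image, mem_univ, true_and, not_exists, ne_eq, eq_comm]
  have negU : ∀ x ∈ C.V, ∀ l, F.c x l < 0 → x ∈ U := fun x hx l h =>
    (memU x).2 ⟨hx, C.ne_v_of_neg D.hF h⟩
  have wU : ∀ l, D.w l ∈ U := fun l => (memU _).2 ⟨D.w_mem l, D.w_ne_v l⟩
  have hcard : U.card + Fintype.card ι = C.V.card := by
    rw [← hFc]; exact Finset.card_sdiff_add_card_eq_card hFs
  set ν : ι → ℤ := fun l => ∑ x ∈ C.V, F.c x l with hν
  set P : ι → ℤ := fun l => ∑ x ∈ U, max (F.c x l) 0 with hP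
  set M : ι → ℤ := fun l => ∑ x ∈ U, max (-F.c x l) 0 with hM
  have h1 : ∀ l, ν l = 1 + ∑ x ∈ U, F.c x l := fun l => by
    simp only [hν]
    rw [← Finset.sum_sdiff hFs, add_comm]
    congr 1
    rw [hFv, Finset.sum_image fun i _ j _ h => vinj h]
    simp [C.cv_apply D.hF]
  have h2 : ∀ l, ν l = 1 + P l - M l := fun l => by
    rw [h1, add_sub_assoc, ← Finset.sum_sub_distrib]
    exact congrArg _ (Finset.sum_congr rfl fun x _ => by omega)
  have hlev : ∑ x ∈ U, F.lev x + Fintype.card ι = ∑ l, ν l := by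
    simp only [h1, Finset.sum_add_distrib, Fac.lev]
    rw [Finset.sum_comm]; simp [add_comm]
  have hch : Fintype.card σ ≤ ∑ y ∈ U, L.ch F y := by
    refine le_trans (Finset.card_le_card fun s _ => ?_) (Finset.card_biUnion_le (s := U)
      (t := fun y => univ.filter fun s => F.rs y ∉ L.K s))
    obtain ⟨y, hy, h⟩ := L.wit s F D.hF
    exact Finset.mem_biUnion.2 ⟨y, (memU y).2 ⟨hy, fun i e => h (by
      rw [e, C.rs_v D.hF]; exact zero_mem _)⟩, by simpa using h⟩
  have hNW : Fintype.card ι = ∑ x ∈ U, (D.NW x).card := by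
    rw [← Finset.card_univ]
    unfold NW
    convert Finset.card_eq_sum_card_fiberwise (f := D.w) (s := univ) (t := U) fun i _ => wU i
  have sub : ∀ (f : N → ℤ) (T : Finset N), T ⊆ U →
      ∑ x ∈ T, max (f x) 0 ≤ ∑ x ∈ U, max (f x) 0 := fun f T hT =>
    Finset.sum_le_sum_of_subset_of_nonneg hT fun _ _ _ => le_max_right _ _
  set SA := D.SS.filter fun j => ∃ n ∈ C.V, F.c n = -Pi.single j 1 with hSA
  have hA : ∑ j ∈ D.SS, (2 * ν j + if j ∈ SA then ν (D.tg j) else 0) ≤ 2 * ∑ l, ν l := by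
    rw [Finset.sum_add_distrib, Finset.sum_ite_mem, ← Finset.mul_sum,
      Finset.inter_eq_right.2 (filter_subset _ _), ← Finset.sum_sdiff (subset_univ D.SS),
      ← Finset.sum_image (f := ν) (g := D.tg)]
    · have a1 : ∑ l ∈ SA.image D.tg, ν l ≤ ∑ l ∈ univ \ D.SS, ν l :=
        Finset.sum_le_sum_of_subset_of_nonneg (fun l hl => by
          obtain ⟨j, hj, rfl⟩ := Finset.mem_image.1 hl
          obtain ⟨c1, n, hn, cn⟩ := mem_filter.1 hj
          exact mem_sdiff.2 ⟨mem_univ _, D.tg_notMem (PF F D.hF) c1 hn cn⟩) fun l _ _ => hspec l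
      have a2 : 0 ≤ ∑ l ∈ univ \ D.SS, ν l := Finset.sum_nonneg fun l _ => hspec l
      rw [← hSA]
      omega
    · intro i hi j hj e
      obtain ⟨c1, n, hn, cn⟩ := mem_filter.1 hi
      obtain ⟨c2, m, hm, cm⟩ := mem_filter.1 hj
      exact D.tg_inj c1 c2 hn hm cn cm e
  have hj : ∀ j ∈ D.SS, 0 ≤ (2 * ν j + if j ∈ SA then ν (D.tg j) else 0) +
      ∑ y ∈ U, ((if j ∈ D.QQ y then (1 : ℤ) else 0) + max (-F.c y j) 0 -
      (if F.c y = -Pi.single j 1 then 1 else 0) - (if y = D.w j then 2 else 0)) := by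
    intro j hj
    rw [Finset.sum_sub_distrib, Finset.sum_sub_distrib, Finset.sum_add_distrib,
      Finset.sum_ite_eq', if_pos (wU j), Finset.sum_boole, Finset.sum_boole]
    change 0 ≤ _ + (_ + M j - _ - _)
    have n0 : 0 ≤ ν j := hspec j
    have nq : 0 ≤ ν (D.tg j) := hspec _
    have e := h2 j
    have wj := D.w_neg j
    have P1 : 1 ≤ P j := by
      obtain ⟨x, hx, a1, a2, a3⟩ := NL j hj
      rcases lt_or_gt_of_ne a3 with h | h
      · have := sub (fun y => -F.c y j) {x, D.w j} (by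
          simp [Finset.insert_subset_iff, wU, negU x hx j h])
        rw [Finset.sum_pair a2] at this
        change _ ≤ M j at this
        omega
      · have := sub (fun y => F.c y j) {x} (by
          rw [Finset.singleton_subset_iff, memU]
          refine ⟨hx, fun i e => ?_⟩
          rw [e, C.cv_apply D.hF] at a3
          exact a1 (by rw [e, show j = i by simpa using a3]))
        rw [Finset.sum_singleton] at this
        change _ ≤ P j at this
        omega
    by_cases hjA : j ∈ SA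
    swap
    · rw [if_neg hjA, Finset.filter_eq_empty_iff.2 (fun y hy h => hjA
        (mem_filter.2 ⟨hj, y, ((memU y).1 hy).1, h⟩)), Finset.card_empty]
      omega
    rw [if_pos hjA]
    obtain ⟨-, n, hn, cn⟩ := mem_filter.1 hjA
    have a1 : (U.filter fun y => F.c y = -Pi.single j 1).card ≤ 1 :=
      Finset.card_le_one.2 fun a ha b hb => C.inj D.hF ((memU a).1 (mem_filter.1 ha).1).1
        ((memU b).1 (mem_filter.1 hb).1).1 ((mem_filter.1 ha).2.trans (mem_filter.1 hb).2.symm)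
    by_contra hc
    have nj : F.c n j = -1 := by simp [cn]
    have wq : F.c (D.w j) (D.tg j) = 1 := by simp [D.tg_c hj, D.tg_ne hj]
    have nq0 : F.c n (D.tg j) = 0 := by simp [cn, D.tg_ne hj]
    have T : D.Tight j := by
      refine ⟨hj, ⟨n, hn, cn⟩, fun x hx h => ?_, fun x hx x' hx' b1 b2 b3 b4 => ?_⟩
      · by_contra h'
        push Not at h'
        have b1 : x ≠ n := fun e => h'.2 (e ▸ cn)
        have b2 : D.w j ≠ n := fun e => by rw [e] at wq; omega
        have := sub (fun y => -F.c y j) {x, D.w j, n} (by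
          simp [Finset.insert_subset_iff, wU, negU x hx j h, negU n hn j (by omega)])
        rw [Finset.sum_insert (by simp [b1, h'.1]), Finset.sum_pair b2] at this
        change _ ≤ M j at this
        omega
      · by_contra h'
        have := sub (fun y => F.c y j) {x, x'} (by
          simp [Finset.insert_subset_iff, memU, hx, hx', b1, b2])
        rw [Finset.sum_pair h'] at this
        change _ ≤ P j at this
        omega
    have cov : ∀ y ∈ U, F.c y (D.tg j) < 0 → 0 < F.c y j := fun y hy h => by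
      rcases lt_trichotomy (F.c y j) 0 with h0 | h0 | h0
      · rcases T.neg y ((memU y).1 hy).1 h0 with e | e
        · rw [e] at h; omega
        · rw [e, ← cn] at h; omega
      · have : 0 < (U.filter fun y => j ∈ D.QQ y).card :=
          Finset.card_pos.2 ⟨y, mem_filter.2 ⟨hy, mem_filter.2 ⟨mem_univ _, T, h, h0⟩⟩⟩
        omega
      · exact h0
    have xq := D.w_neg (D.tg j)
    have Mq : M (D.tg j) = 1 := by
      simp only [hM]
      rw [Finset.sum_eq_single_of_mem _ (wU (D.tg j)), xq]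
      · rfl
      · intro y hy hne
        by_contra h
        exact hne (T.pos y ((memU y).1 hy).1 _ (D.w_mem _) ((memU y).1 hy).2 (D.w_ne_v _)
          (cov y hy (by omega)) (cov _ (wU _) (by omega)))
    have Pq := sub (fun y => F.c y (D.tg j)) {D.w j} (by simp [wU])
    rw [Finset.sum_singleton] at Pq
    change _ ≤ P (D.tg j) at Pq
    have := h2 (D.tg j)
    omega
  have s1 := Finset.sum_nonneg hj
  rw [Finset.sum_add_distrib, Finset.sum_comm] at s1
  have s2 := Finset.sum_le_sum fun y (hy : y ∈ U) =>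
    D.loc_all L PF NC ((memU y).1 hy).1 ((memU y).1 hy).2
  rw [Finset.sum_add_distrib, Finset.sum_add_distrib, ← Finset.mul_sum, ← Nat.cast_sum, ← hNW,
    Finset.sum_const, nsmul_eq_mul] at s2
  have s3 : ∑ y ∈ U, L.sv F y = -∑ y ∈ U, F.lev y - (∑ y ∈ U, L.ch F y : ℕ) := by
    simp [LC.sv, Finset.sum_sub_distrib]
  omega

end Chg

end Pool.Agent.P.MP_a05398_ag
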