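import Pool.Agent.P.MP_a05398_ag.St.Plane

/-! The decomposition in coordinates. -/

set_option autoImplicit false
set_option linter.unusedSectionVars false
set_option linter.unusedSimpArgs false

open Finset

namespace Pool.Agent.P.MP_a05398_ag

section blocks
variable {N ι : Type} [AddCommGroup N] [Fintype ι] [DecidableEq ι] {C : Cfg N ι} {F : Fac N ι}

theorem root_block {B : ι → Prop}
    (hB : ∀ x ∈ C.V, (∀ t, B t → F.c x t = 0) ∨ ∀ t, ¬ B t → F.c x t = 0) {x : N} (hx : x ∈ C.V)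
    {s t : ι} (hst : s ≠ t) (cx : F.c x = Pi.single s 1 - Pi.single t 1) : B s ↔ B t := by
  have xs : F.c x s ≠ 0 := by simp [cx, hst]
  have xt : F.c x t ≠ 0 := by simp [cx, hst.symm]
  rcases hB x hx with h | h
  · exact iff_of_false (fun a => xs (h s a)) fun a => xt (h t a)
  · exact iff_of_true (not_not.1 fun a => xs (h s a)) (not_not.1 fun a => xt (h t a))

theorem YB.closed {j k l : ι} (h : YB C F j k l) {B : ι → Prop}
    (hB : ∀ x ∈ C.V, (∀ t, B t → F.c x t = 0) ∨ ∀ t, ¬ B t → F.c x t = 0) {t : ι}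
    (ht : t = j ∨ t = k ∨ t = l) (hb : B t) : B j ∧ B k ∧ B l := by
  obtain ⟨⟨hk, a, ha, -, -, -, -, ca, -, -⟩, -, h1, -, y, hy, cy, -⟩ := h
  have e1 := root_block hB ha hk ca
  have e2 := root_block hB hy h1.symm cy
  rcases ht with rfl | rfl | rfl <;> tauto

theorem YB.supp (hF : C.good F) {j k l : ι} (h : YB C F j k l) : ∀ x ∈ C.V,
    (∀ t, (t = j ∨ t = k ∨ t = l) → F.c x t = 0) ∨
      ∀ t, ¬ (t = j ∨ t = k ∨ t = l) → F.c x t = 0 := by
  obtain ⟨-, -, -, -, y, -, cy, hs⟩ := h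
  intro x hx
  rcases hs x hx with h | h | h | h
  · left; rintro t (rfl | rfl | rfl) <;> tauto
  · exact Or.inr fun t ht => h t (by tauto) (by tauto)
  · exact Or.inr fun t ht => by rw [h, C.cv_apply hF, if_neg (by tauto)]
  · exact Or.inr fun t ht => by
      push Not at ht
      simp [h, cy, ht]

theorem YB.disj_split {j k l i p : ι} (h : YB C F j k l) (h' : Split C F i p) :
    ¬ (i = j ∨ i = k ∨ i = l) := fun ht => by
  have := h.closed (B := fun t => t = i ∨ t = p) (fun x hx => (h'.2.2 x hx).imp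
    (fun a => by rintro t (rfl | rfl) <;> tauto) fun a t b => a t (by tauto) (by tauto)) ht
    (Or.inl rfl)
  have a1 := h.1.1
  have a2 := h.2.2.1
  have a3 := h.2.2.2.1
  obtain ⟨rfl | rfl, b2 | b2, b3 | b3⟩ := this <;> simp_all

theorem YB.disj (hF : C.good F) {j k l j' k' l' t : ι} (h : YB C F j k l) (h' : YB C F j' k' l')
    (ht : t = j ∨ t = k ∨ t = l) (ht' : t = j' ∨ t = k' ∨ t = l') : l' = l := by
  have key : ∀ x ∈ C.V, F.c x ≠ -Pi.single l' 1 := fun x hx cx => by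
    obtain ⟨-, -, a1, a2, y, -, cy, hs⟩ := h'
    have xl : F.c x l' = -1 := by simp [cx]
    rcases hs x hx with b | b | b | b
    · omega
    · have := b l' a1 a2
      omega
    · rw [b, C.cv_apply hF, if_pos rfl] at xl
      omega
    · have := congrFun cx j'
      simp [b, cy, a1.symm] at this
  obtain ⟨-, -, b | b | b⟩ := h'.closed (h.supp hF) ht' ht
  · obtain ⟨⟨-, -, -, -, -, n, hn, -, -, cn⟩, -⟩ := h
    exact absurd (b ▸ cn) (key n hn)
  · obtain ⟨-, ⟨m, hm, cm⟩, -⟩ := h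
    exact absurd (b ▸ cm) (key m hm)
  · exact b

/-- the vertices of the hexagon -/
def HX : Finset (ℤ × ℤ) := {(1, 0), (0, 1), (-1, 0), (0, -1), (1, 1), (-1, -1)}

/-- the vertices of the twisted prism -/
def YX : Finset (ℤ × ℤ × ℤ) :=
  {(1, 0, 0), (0, 1, 0), (-1, 0, 0), (0, -1, 0), (1, 1, 0), (-1, -1, 0), (0, 0, 1), (1, 0, -1)}

theorem Hex.verts (hF : C.good F) {i p : ι} (h : Hex C F i p) :
    (∀ x ∈ C.V, Pl F i p x → (F.c x i, -F.c x p) ∈ HX) ∧
      ∀ z ∈ HX, ∃ x ∈ C.V, Pl F i p x ∧ (F.c x i, -F.c x p) = z := by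
  obtain ⟨P⟩ := h.1.nonempty hF
  obtain ⟨w, hw, cw⟩ := h.2
  have hne := P.ne
  refine ⟨fun x hx hpl => ?_, fun z hz => ?_⟩
  · rcases P.planar hx hpl with e | e | e | e | e | e
    · rw [e, C.cv F hF]; simp [hne, HX]
    · rw [e, C.cv F hF]; simp [hne.symm, HX]
    · rw [e, P.ca]; simp [hne, hne.symm, HX]
    · rw [e, P.cb]; simp [hne, hne.symm, HX]
    · rw [e, P.cn]; simp [hne, hne.symm, HX]
    · rw [e]; simp [hne, hne.symm, HX]
  · simp only [HX, mem_insert, mem_singleton] at hz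
    rcases hz with rfl | rfl | rfl | rfl | rfl | rfl
    · exact ⟨_, C.mem F hF _, P.pl_vi, by simp [C.cv F hF, hne]⟩
    · exact ⟨w, hw, fun l _ h2 => by simp [cw, h2], by simp [cw, hne.symm]⟩
    · exact ⟨_, P.hn, P.pl_n, by simp [P.cn, hne]⟩
    · exact ⟨_, C.mem F hF _, P.pl_vp, by simp [C.cv F hF, hne.symm]⟩
    · exact ⟨_, P.hb, P.pl_b, by simp [P.cb, hne, hne.symm]⟩
    · exact ⟨_, P.ha, P.pl_a, by simp [P.ca, hne, hne.symm]⟩

theorem YB.verts (hF : C.good F) {j k l : ι} (h : YB C F j k l) :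
    (∀ x ∈ C.V, ¬ (F.c x j = 0 ∧ F.c x k = 0 ∧ F.c x l = 0) →
      (F.c x j, -F.c x k, F.c x l) ∈ YX) ∧
    ∀ z ∈ YX, ∃ x ∈ C.V, (∀ t, ¬ (t = j ∨ t = k ∨ t = l) → F.c x t = 0) ∧
      (F.c x j, -F.c x k, F.c x l) = z := by
  obtain ⟨h1, h2, a1, a2, y, hy, cy, hs⟩ := h
  obtain ⟨b1, b2⟩ := Hex.verts hF ⟨h1, h2⟩
  have hk := h1.1
  have y1 : (F.c y j, -F.c y k, F.c y l) = (1, 0, -1) := by simp [cy, a1, a1.symm, a2.symm, hk]
  have v1 : (F.c (F.v l) j, -F.c (F.v l) k, F.c (F.v l) l) = (0, 0, 1) := by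
    simp [C.cv F hF, a1.symm, a2.symm]
  have sub : ∀ z ∈ HX, (z.1, z.2, (0 : ℤ)) ∈ YX := by decide
  have sup : ∀ z ∈ YX, ((z.1, z.2.1) ∈ HX ∧ z.2.2 = 0) ∨ z = (0, 0, 1) ∨ z = (1, 0, -1) := by
    decide
  refine ⟨fun x hx hn => ?_, fun z hz => ?_⟩
  · rcases (hs x hx).resolve_left hn with b | b | b
    · rw [b l a1 a2]; exact sub _ (b1 x hx b)
    · rw [b, v1]; decide
    · rw [b, y1]; decide
  · rcases sup z hz with ⟨b, b'⟩ | rfl | rfl
    · obtain ⟨x, hx, c1, c2⟩ := b2 _ b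
      rw [Prod.mk.injEq] at c2
      exact ⟨x, hx, fun t ht => c1 t (by tauto) (by tauto), by rw [c2.1, c2.2, c1 l a1 a2, ← b']⟩
    · exact ⟨_, C.mem F hF l, fun t ht => by rw [C.cv_apply hF, if_neg (by tauto)], v1⟩
    · exact ⟨y, hy, fun t ht => by push Not at ht; simp [cy, ht], y1⟩

end blocks

theorem single_inj {κ M : Type} [DecidableEq κ] [Zero M] {z z' : κ × M} (h : z.2 ≠ 0)
    (e : Pi.single (M := fun _ => M) z.1 z.2 = Pi.single z'.1 z'.2) : z = z' := by
  have := congrFun e z.1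
  by_cases h1 : z.1 = z'.1
  · exact Prod.ext h1 (by simpa [h1] using this)
  · exact absurd (by simpa [h1] using this) h

/-- the rearrangement of the coordinates -/
def shuffle {d a b e : ℕ} (E : ((Fin a × Bool) ⊕ (Fin b ⊕ Fin b ⊕ Fin b)) ⊕ Fin e ≃ Fin d) :
    (Fin d → ℤ) ≃+ (Fin a → ℤ × ℤ) × (Fin b → ℤ × ℤ × ℤ) × (Fin e → ℤ) where
  toFun z := (fun j => (z (E (.inl (.inl (j, false)))), -z (E (.inl (.inl (j, true))))),
    fun t => (z (E (.inl (.inr (.inl t)))), -z (E (.inl (.inr (.inr (.inl t))))),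
      z (E (.inl (.inr (.inr (.inr t)))))), fun r => z (E (.inr r)))
  invFun w := fun i => Sum.elim (Sum.elim (fun j => if j.2 then -(w.1 j.1).2 else (w.1 j.1).1)
    (Sum.elim (fun t => (w.2.1 t).1) (Sum.elim (fun t => -(w.2.1 t).2.1) fun t => (w.2.1 t).2.2)))
    w.2.2 (E.symm i)
  left_inv z := by
    funext i
    obtain ⟨x, rfl⟩ := E.surjective i
    rcases x with (⟨j, _ | _⟩ | t | t | t) | r <;> simp
  right_inv w := by simp
  map_add' z z' := by
    refine Prod.ext (funext fun j => ?_) (Prod.ext (funext fun j => ?_) (funext fun j => rfl))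
    · exact Prod.ext rfl (neg_add _ _)
    · exact Prod.ext rfl (Prod.ext (neg_add _ _) rfl)

theorem structure_thm {d : ℕ} {V : Finset (Fin d → ℤ)} (H : Fano V) :
    ∃ (a b e : ℕ) (g : (Fin d → ℤ) ≃+ (Fin a → ℤ × ℤ) × (Fin b → ℤ × ℤ × ℤ) × (Fin e → ℤ))
      (W : Finset (Fin e → ℤ)), d = 2 * a + 3 * b + e ∧ 2 * W.card ≤ 5 * e ∧
      ∀ v, v ∈ V ↔ (∃ j, ∃ h ∈ HX, g v = (Pi.single j h, 0, 0)) ∨
        (∃ t, ∃ y ∈ YX, g v = (0, Pi.single t y, 0)) ∨ ∃ w ∈ W, g v = (0, 0, w) := by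
  classical
  obtain ⟨F0, h0⟩ := H.exists_good
  let L : LC H.cfg Empty := ⟨fun s => s.elim, fun g hg y hy hn => by
    have := H.cfg.lev_le g hg y hy hn
    simp only [univ_eq_empty, filter_empty, card_empty, Nat.cast_zero]
    omega, fun s => s.elim⟩
  obtain ⟨F, hF, hineq⟩ := bd_all _ _ H.cfg Empty L F0 h0 rfl
  obtain ⟨a, h, hinj, hcard, hsp⟩ := exists_pairs hF
  have hG : Fano.Good V F := hF
  obtain ⟨b, l, hb, linj, hl⟩ : ∃ (b : ℕ) (l : Fin b → Fin d), (spSet L F).card = b ∧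
      (∀ t t', l t = l t' → t = t') ∧ ∀ t, l t ∈ spSet L F :=
    ⟨_, fun t => ((spSet L F).equivFin.symm t).1, rfl, fun t t' e =>
      (spSet L F).equivFin.symm.injective (Subtype.ext e),
      fun t => ((spSet L F).equivFin.symm t).2⟩
  choose j k hY using fun t => (mem_spSet.1 (hl t)).resolve_right fun ⟨s, _⟩ => s.elim
  rw [hb] at hineq
  let Φ : (Fin a × Bool) ⊕ (Fin b ⊕ Fin b ⊕ Fin b) → Fin d :=
    Sum.elim h (Sum.elim j (Sum.elim k l))
  have d1 : ∀ x t, ¬ (h x = j t ∨ h x = k t ∨ h x = l t) := fun ⟨i, s⟩ t => by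
    cases s
    · exact (hY t).disj_split (hsp i)
    · exact (hY t).disj_split (hsp i).symm
  have d2 : ∀ t t' x, (x = j t ∨ x = k t ∨ x = l t) → (x = j t' ∨ x = k t' ∨ x = l t') → t' = t :=
    fun t t' x a1 a2 => linj _ _ ((hY t).disj hF (hY t') a1 a2)
  have d3 : ∀ {t t' x x'}, x = x' → (x = j t ∨ x = k t ∨ x = l t) →
      (x' = j t' ∨ x' = k t' ∨ x' = l t') → t' = t := fun e a1 a2 => d2 _ _ _ a1 (e ▸ a2)
  have Φinj : Function.Injective Φ := by
    rintro (x | y) (x' | y') e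
    · rw [hinj e]
    · rcases y' with t | t | t
      exacts [absurd (Or.inl e) (d1 x t), absurd (Or.inr (Or.inl e)) (d1 x t),
        absurd (Or.inr (Or.inr e)) (d1 x t)]
    · rcases y with t | t | t
      exacts [absurd (Or.inl e.symm) (d1 x' t), absurd (Or.inr (Or.inl e.symm)) (d1 x' t),
        absurd (Or.inr (Or.inr e.symm)) (d1 x' t)]
    · have e' := e
      rcases y with t | t | t <;> rcases y' with t' | t' | t' <;>
        simp only [Φ, Sum.elim_inl, Sum.elim_inr] at e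
      all_goals
        obtain rfl := d3 (t := t) (t' := t') e' (by simp [Φ]) (by simp [Φ])
        have a1 := (hY t').1.1
        have a2 := (hY t').2.2.1
        have a3 := (hY t').2.2.2.1
        first | rfl | exact absurd e ‹_› | exact absurd e.symm ‹_›
  obtain ⟨e, E, hE⟩ : ∃ (e : ℕ) (E : ((Fin a × Bool) ⊕ (Fin b ⊕ Fin b ⊕ Fin b)) ⊕ Fin e ≃ Fin d),
      ∀ x, E (.inl x) = Φ x :=
    ⟨_, (Equiv.sumCongr (Equiv.ofInjective Φ Φinj) (Fintype.equivFin _).symm).trans
      (Equiv.Set.sumCompl (Set.range Φ)), fun x => rfl⟩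
  have hd : d = 2 * a + 3 * b + e := by
    have := Fintype.card_congr E
    simp only [Fintype.card_sum, Fintype.card_prod, Fintype.card_fin, Fintype.card_bool] at this
    omega
  have cb : Function.Bijective F.c := ⟨hG.inj, fun y => ⟨∑ i, y i • F.v i, by
    rw [map_sum]
    simp only [map_zsmul, hG.cv]
    exact (pi_eq_sum_univ' _).symm⟩⟩
  let g := (AddEquiv.ofBijective F.c cb).trans (shuffle E)
  have g1 : ∀ x i, (g x).1 i = (F.c x (h (i, false)), -F.c x (h (i, true))) := fun x i => by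
    change (F.c x (E _), -F.c x (E _)) = _
    rw [hE, hE]; rfl
  have g2 : ∀ x t, (g x).2.1 t = (F.c x (j t), -F.c x (k t), F.c x (l t)) := fun x t => by
    change (F.c x (E _), -F.c x (E _), F.c x (E _)) = _
    rw [hE, hE, hE]; rfl
  have g3 : ∀ x r, (g x).2.2 r = F.c x (E (.inr r)) := fun x r => rfl
  have ne3 : ∀ r x, E (.inr r) ≠ Φ x := fun r x e => by
    rw [← hE] at e
    exact Sum.inr_ne_inl (E.injective e)
  have key1 : ∀ i x, Pl F (h (i, false)) (h (i, true)) x →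
      g x = (Pi.single i (F.c x (h (i, false)), -F.c x (h (i, true))), 0, 0) := fun i x hx => by
    refine Prod.ext (funext fun i' => ?_) (Prod.ext (funext fun t => ?_) (funext fun r => ?_))
    · rw [g1]
      by_cases e : i' = i
      · simp [e]
      · simp [e, hx (h (i', false)) (by simp [hinj.eq_iff, e]) (by simp [hinj.eq_iff]),
          hx (h (i', true)) (by simp [hinj.eq_iff]) (by simp [hinj.eq_iff, e])]
    · have a1 := d1 (i, false) t
      have a2 := d1 (i, true) t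
      push Not at a1 a2
      rw [g2, hx _ a1.1.symm a2.1.symm, hx _ a1.2.1.symm a2.2.1.symm, hx _ a1.2.2.symm a2.2.2.symm]
      rfl
    · exact hx _ (ne3 r (.inl _)) (ne3 r (.inl _))
  have key2 : ∀ t x, (∀ s, ¬ (s = j t ∨ s = k t ∨ s = l t) → F.c x s = 0) →
      g x = (0, Pi.single t (F.c x (j t), -F.c x (k t), F.c x (l t)), 0) := fun t x hx => by
    refine Prod.ext (funext fun i => ?_) (Prod.ext (funext fun t' => ?_) (funext fun r => ?_))
    · rw [g1, hx _ (d1 _ t), hx _ (d1 _ t)]; rfl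
    · rw [g2]
      by_cases e : t' = t
      · simp [e]
      · simp [e, hx (j t') (fun a => e (d2 t t' _ a (by simp))),
          hx (k t') (fun a => e (d2 t t' _ a (by simp))),
          hx (l t') (fun a => e (d2 t t' _ a (by simp)))]
    · refine hx _ ?_
      rintro (a1 | a1 | a1)
      · exact ne3 r (.inr (.inl t)) a1
      · exact ne3 r (.inr (.inr (.inl t))) a1
      · exact ne3 r (.inr (.inr (.inr t))) a1
  have hx := fun i => Hex.verts hF (⟨(hsp i).1, (hsp i).2.1⟩ : Hex H.cfg F _ _)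
  have hy := fun t => (hY t).verts hF
  set W := (V.filter fun v => (g v).1 = 0 ∧ (g v).2.1 = 0).image fun v => (g v).2.2 with hW
  have main : ∀ v, v ∈ V ↔ (∃ j, ∃ h ∈ HX, g v = (Pi.single j h, 0, 0)) ∨
      (∃ t, ∃ y ∈ YX, g v = (0, Pi.single t y, 0)) ∨ ∃ w ∈ W, g v = (0, 0, w) := fun v => by
    refine ⟨fun hv => ?_, ?_⟩
    · by_cases c1 : ∀ i, F.c v (h (i, false)) = 0 ∧ F.c v (h (i, true)) = 0
      swap
      · obtain ⟨i, hi⟩ := not_forall.1 c1
        have := ((hsp i).2.2 v hv).resolve_left hi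
        exact Or.inl ⟨i, _, (hx i).1 v hv this, key1 i v this⟩
      by_cases c2 : ∀ t, F.c v (j t) = 0 ∧ F.c v (k t) = 0 ∧ F.c v (l t) = 0
      swap
      · obtain ⟨t, ht⟩ := not_forall.1 c2
        exact Or.inr (Or.inl ⟨t, _, (hy t).1 v hv ht, key2 t v (((hY t).supp hF v hv).resolve_left
          fun a => ht ⟨a _ (by simp), a _ (by simp), a _ (by simp)⟩)⟩)
      have a1 : (g v).1 = 0 := funext fun i => by rw [g1, (c1 i).1, (c1 i).2]; rfl
      have a2 : (g v).2.1 = 0 := funext fun t => by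
        rw [g2, (c2 t).1, (c2 t).2.1, (c2 t).2.2]; rfl
      exact Or.inr (Or.inr ⟨_, mem_image_of_mem _ (mem_filter.2 ⟨hv, a1, a2⟩),
        Prod.ext a1 (Prod.ext a2 rfl)⟩)
    · rintro (⟨i, z, hz, e⟩ | ⟨t, z, hz, e⟩ | ⟨w, hw, e⟩)
      · obtain ⟨x, a1, a2, rfl⟩ := (hx i).2 z hz
        rwa [g.injective (e.trans (key1 i x a2).symm)]
      · obtain ⟨x, a1, a2, rfl⟩ := (hy t).2 z hz
        rwa [g.injective (e.trans (key2 t x a2).symm)]
      · obtain ⟨x, a1, rfl⟩ := mem_image.1 hw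
        obtain ⟨a2, a3, a4⟩ := mem_filter.1 a1
        rwa [g.injective (a₂ := x) (e.trans (Prod.ext a3.symm (Prod.ext a4.symm rfl)))]
  refine ⟨a, b, e, g, W, hd, ?_, main⟩
  have cnt := Finset.card_le_card_of_injOn (s := ((univ : Finset (Fin a)) ×ˢ HX).disjSum
    (((univ : Finset (Fin b)) ×ˢ YX).disjSum W)) (t := V)
    (fun x => g.symm (Sum.elim (fun z => (Pi.single z.1 z.2, 0, 0))
      (Sum.elim (fun z => (0, Pi.single z.1 z.2, 0)) fun w => (0, 0, w)) x))
    (by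
      rintro (z | z | w) hz <;> simp only [mem_coe, inl_mem_disjSum, inr_mem_disjSum, mem_product,
        mem_univ, true_and] at hz <;> rw [mem_coe, main]
      · exact Or.inl ⟨z.1, z.2, hz, by simp⟩
      · exact Or.inr (Or.inl ⟨z.1, z.2, hz, by simp⟩)
      · exact Or.inr (Or.inr ⟨w, hz, by simp⟩))
    (by
      have n1 : ∀ z ∈ HX, z ≠ 0 := by decide
      have n2 : ∀ z ∈ YX, z ≠ 0 := by decide
      rintro (z | z | w) hz (z' | z' | w') hz' e <;>
        simp only [mem_coe, inl_mem_disjSum, inr_mem_disjSum, mem_product, mem_univ,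
          true_and] at hz hz' <;>
        simp only [EmbeddingLike.apply_eq_iff_eq, Sum.elim_inl, Sum.elim_inr, Prod.mk.injEq,
          Pi.single_eq_zero_iff, and_true, true_and,
          eq_comm (a := (0 : Fin a → ℤ × ℤ)), eq_comm (a := (0 : Fin b → ℤ × ℤ × ℤ))] at e
      · rw [single_inj (n1 _ hz) e]
      · exact absurd e.1 (n1 _ hz)
      · exact absurd e.1 (n1 _ hz)
      · exact absurd e.1 (n1 _ hz')
      · rw [single_inj (n2 _ hz) e]
      · exact absurd e.1 (n2 _ hz)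
      · exact absurd e.1 (n1 _ hz')
      · exact absurd e.1 (n2 _ hz')
      · rw [e])
  rw [card_disjSum, card_disjSum, card_product, card_product, card_univ, card_univ,
    Fintype.card_fin, Fintype.card_fin, show HX.card = 6 by decide,
    show YX.card = 8 by decide] at cnt
  rw [Fintype.card_fin] at hineq
  change 2 * V.card + _ ≤ _ at hineq
  omega

end Pool.Agent.P.MP_a05398_ag
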