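import Pool.Agent.P.MP_a05398_ag.St.Core

/-! Blocks, and the contraction of a line. -/

set_option autoImplicit false
set_option linter.unusedSectionVars false
set_option linter.unusedSimpArgs false

open Finset

namespace Pool.Agent.P.MP_a05398_ag

variable {N ι : Type} [AddCommGroup N] [Fintype ι] [DecidableEq ι]

/-- the slots `j`, `k`, `l` carry a twisted hexagonal prism which splits off -/
def YB (C : Cfg N ι) (F : Fac N ι) (j k l : ι) : Prop :=
  Pent C F j k ∧ (∃ m ∈ C.V, F.c m = -Pi.single k 1) ∧ l ≠ j ∧ l ≠ k ∧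
    ∃ y ∈ C.V, F.c y = Pi.single j 1 - Pi.single l 1 ∧ ∀ x ∈ C.V,
      (F.c x j = 0 ∧ F.c x k = 0 ∧ F.c x l = 0) ∨ Pl F j k x ∨ x = F.v l ∨ x = y

/-- the slot `l` carries a segment which splits off, with the charge `s` of its own -/
def Pole {C : Cfg N ι} {σ : Type} [Fintype σ] (L : LC C σ) (F : Fac N ι) (l : ι) (s : σ)
    (y : N) : Prop :=
  y ∈ C.V ∧ F.c y = -Pi.single l 1 ∧ (∀ x ∈ C.V, x ≠ y → x ≠ F.v l → F.c x l = 0) ∧
    ∀ x ∈ C.V, F.rs x ∉ L.K s ↔ x = y

open Classical in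
noncomputable def spSet {C : Cfg N ι} {σ : Type} [Fintype σ] (L : LC C σ) (F : Fac N ι) :
    Finset ι := univ.filter fun l => (∃ j k, YB C F j k l) ∨ ∃ s y, Pole L F l s y

theorem mem_spSet {C : Cfg N ι} {σ : Type} [Fintype σ] {L : LC C σ} {F : Fac N ι} {l : ι} :
    l ∈ spSet L F ↔ (∃ j k, YB C F j k l) ∨ ∃ s y, Pole L F l s y := by simp [spSet]

/-- the inequality to be proved -/
def Bd {C : Cfg N ι} {σ : Type} [Fintype σ] (L : LC C σ) : Prop :=
  ∃ F, C.good F ∧ 2 * C.V.card + 2 * Fintype.card σ ≤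
    5 * Fintype.card ι + (splitSet C F).card + (spSet L F).card

theorem Pole.unique {C : Cfg N ι} {σ : Type} [Fintype σ] {L : LC C σ} {F : Fac N ι} {l l' : ι}
    {s : σ} {y y' : N} (h : Pole L F l s y) (h' : Pole L F l' s y') : l = l' := by
  have e := (h'.2.2.2 y h.1).1 ((h.2.2.2 y h.1).2 rfl)
  have := congrFun (h.2.1.symm.trans (e ▸ h'.2.1)) l
  by_contra hc
  simp [hc] at this

theorem card_lift {κ : Type} [DecidableEq κ] {A : Finset κ} {B T : Finset ι} (e : κ → ι)
    (he : Function.Injective e) (bad : κ → Prop) (h : ∀ l ∈ A, ¬ bad l → e l ∈ B)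
    (h1 : ∀ l ∈ A, ∀ l' ∈ A, bad l → bad l' → l = l') (hT : T ⊆ B) (hT' : ∀ l, e l ∉ T) :
    A.card + T.card ≤ B.card + 1 ∧ ((∀ l ∈ A, ¬ bad l) → A.card + T.card ≤ B.card) := by
  classical
  have a1 := Finset.card_filter_add_card_filter_not (s := A) bad
  have a2 : (A.filter bad).card ≤ 1 := Finset.card_le_one.2 fun a ha b hb =>
    h1 a (mem_filter.1 ha).1 b (mem_filter.1 hb).1 (mem_filter.1 ha).2 (mem_filter.1 hb).2
  have a3 : (A.filter fun l => ¬ bad l).card + T.card ≤ B.card := by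
    rw [← Finset.card_image_of_injective _ he, ← Finset.card_union_of_disjoint
      (Finset.disjoint_left.2 fun x h1 h2 => by
        obtain ⟨l, -, rfl⟩ := Finset.mem_image.1 h1
        exact hT' l h2)]
    refine Finset.card_le_card (Finset.union_subset (fun x hx => ?_) hT)
    obtain ⟨l, hl, rfl⟩ := Finset.mem_image.1 hx
    exact h l (mem_filter.1 hl).1 (mem_filter.1 hl).2
  refine ⟨by omega, fun h0 => ?_⟩
  rwa [Finset.filter_true_of_mem h0] at a3

theorem Cfg.c_expand (C : Cfg N ι) {F f : Fac N ι} (hF : C.good F) (hf : C.good f) (x : N)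
    (t : ι) : F.c x t = ∑ l, f.c x l * F.c (f.v l) t := by
  have := congrFun (C.c_rs' hF hf x) t
  rw [Fac.rs_apply, map_sub, map_sum] at this
  simpa [sub_eq_zero, Finset.sum_apply] using this

theorem Cfg.c_same (C : Cfg N ι) {F f : Fac N ι} (hF : C.good F) (hf : C.good f) {p : ι}
    (hp : f.v p = F.v p) (h : ∀ l, l ≠ p → F.c (f.v l) p = 0) (x : N) : f.c x p = F.c x p := by
  rw [C.c_expand hF hf, Finset.sum_eq_single p, hp, C.cv_apply hF]
  · simp
  · intro l _ hl; rw [h l hl, mul_zero]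
  · simp

/-- the facet with the slot `p` forgotten -/
def Fac.res1 (f : Fac N ι) (p : ι) : Fac N {l // l ≠ p} where
  v := fun l => f.v l.1
  c := { toFun := fun x l => f.c x l.1
         map_zero' := by funext l; simp
         map_add' := fun x y => by funext l; simp }

theorem Fac.res1_c (f : Fac N ι) (p : ι) (x : N) (l : {l // l ≠ p}) :
    (f.res1 p).c x l = f.c x l.1 := rfl

theorem sum_res1 {M : Type} [AddCommMonoid M] (p : ι) (g : ι → M) :
    ∑ l, g l = g p + ∑ l : {l // l ≠ p}, g l.1 := by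
  rw [← Finset.add_sum_erase _ _ (Finset.mem_univ p)]
  congr 1
  exact Finset.sum_subtype _ (fun x => by simp) g

theorem Fac.lev_res1 (f : Fac N ι) (p : ι) (x : N) : f.lev x = f.c x p + (f.res1 p).lev x :=
  sum_res1 p _

theorem Fac.rs_res1 (f : Fac N ι) (p : ι) (x : N) :
    (f.res1 p).rs x = f.rs x + f.c x p • f.v p := by
  rw [f.rs_apply, sum_res1 p, Fac.rs_apply]
  change x - ∑ l : {l // l ≠ p}, f.c x l.1 • f.v l.1 = _
  abel

theorem ext_res1 {f : Fac N ι} {p : ι} {x : N} {v : ι → ℤ} (h0 : f.c x p = v p)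
    (h : (f.res1 p).c x = fun l => v l.1) : f.c x = v := funext fun l => by
  by_cases e : l = p
  · rw [e, h0]
  · exact congrFun h ⟨l, e⟩

theorem single_res1 {p : ι} (l : {l // l ≠ p}) :
    Pi.single l (1 : ℤ) = fun k : {l // l ≠ p} => Pi.single (M := fun _ => ℤ) l.1 1 k.1 := by
  funext k
  simp [Pi.single_apply, Subtype.ext_iff]

/-- the data of a line which can be contracted -/
structure LD (C : Cfg N ι) (F : Fac N ι) (p : ι) where
  hF : C.good F
  u : N
  hu : u ∈ C.V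
  neg : ∀ f, C.good f → f.v p = F.v p → f.c u p < 0
  bd : ∀ f, C.good f → f.v p = F.v p → ∀ x ∈ C.V, x ≠ u → (∀ l, x ≠ f.v l) →
    (f.res1 p).lev x + |f.c x p| ≤ 0

namespace LD
variable {C : Cfg N ι} {F : Fac N ι} {p : ι} (E : LD C F p)

theorem ne_v {f : Fac N ι} (hp : f.v p = F.v p) {x : N} (h : x ≠ F.v p)
    (hl : ∀ l, x ≠ (f.res1 p).v l) (l : ι) : x ≠ f.v l := by
  by_cases e : l = p
  · rwa [e, hp]
  · exact hl ⟨l, e⟩

open Classical in
/-- the facet system obtained by forgetting the line -/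
noncomputable def contract : Cfg N {l // l ≠ p} where
  V := C.V.filter fun x => x ≠ F.v p ∧ x ≠ E.u
  good g := ∃ f, C.good f ∧ f.v p = F.v p ∧ g = f.res1 p
  mem := by
    rintro _ ⟨f, hf, hp, rfl⟩ l
    exact Finset.mem_filter.2 ⟨C.mem f hf _, fun e => l.2 (C.v_inj hf (congrArg f.c
      (e.trans hp.symm))), (C.ne_v_of_neg hf (E.neg f hf hp) _).symm⟩
  cv := by
    rintro _ ⟨f, hf, -, rfl⟩ l
    rw [single_res1, ← C.cv f hf]; rfl
  lev_le := by
    rintro _ ⟨f, hf, hp, rfl⟩ x hx hl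
    rw [Finset.mem_filter] at hx
    have := E.bd f hf hp x hx.1 hx.2.2 (ne_v hp hx.2.1 hl)
    have := abs_nonneg (f.c x p)
    omega
  flip := by
    rintro _ ⟨f, hf, hp, rfl⟩ l
    obtain ⟨f', hf', h⟩ := C.flip f hf l.1
    exact ⟨f'.res1 p, ⟨f', hf', by rw [h.v_ne p l.2.symm, hp], rfl⟩,
      fun j hj => h.v_ne j.1 fun e => hj (Subtype.ext e), h.neg, h.c_self,
      fun x j hj => h.c_ne x j.1 fun e => hj (Subtype.ext e)⟩
  ker := by
    rintro _ _ ⟨f, hf, hp, rfl⟩ ⟨f', hf', hp', rfl⟩ x hx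
    funext l
    rw [Fac.res1_c, C.c_expand hf' hf, sum_res1 p, hp, ← hp', C.cv_apply hf', if_neg l.2,
      Finset.sum_eq_zero fun k _ => by rw [← f.res1_c, hx, Pi.zero_apply, zero_mul]]
    simp
  nz := by
    rintro _ ⟨f, hf, hp, rfl⟩ x hx h0
    rw [Finset.mem_filter] at hx
    have := E.bd f hf hp x hx.1 hx.2.2 (ne_v hp hx.2.1 fun l e => by
      have := congrFun h0 l
      rw [e, Fac.res1_c] at this
      change f.c (f.v l.1) l.1 = 0 at this
      simp [C.cv_apply hf] at this)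
    rw [Fac.lev, h0] at this
    exact C.nz f hf x hx.1 (ext_res1 (p := p) (by simpa using this) h0)

theorem mem_contract {x : N} : x ∈ E.contract.V ↔ x ∈ C.V ∧ x ≠ F.v p ∧ x ≠ E.u := by
  classical
  exact Finset.mem_filter

theorem contract_good : E.contract.good (F.res1 p) := ⟨F, E.hF, rfl, rfl⟩

theorem card_le : C.V.card ≤ E.contract.V.card + 2 := by
  classical
  have : C.V ⊆ E.contract.V ∪ {F.v p, E.u} := fun x hx => by
    rw [Finset.mem_union, E.mem_contract, mem_insert, mem_singleton]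
    tauto
  exact le_trans (Finset.card_le_card this) (le_trans (Finset.card_union_le _ _)
    (Nat.add_le_add_left Finset.card_le_two _))

theorem card_slot (p : ι) : Fintype.card {l // l ≠ p} + 1 = Fintype.card ι := by
  have := sum_res1 p fun _ => (1 : ℕ)
  simp only [sum_const, card_univ, smul_eq_mul, mul_one] at this
  omega

include E in
theorem rs_rs {f : Fac N ι} (hf : C.good f) (hp : f.v p = F.v p) (x : N) :
    F.rs ((f.res1 p).rs x) = f.rs x := by
  rw [Fac.rs_res1, map_add, map_zsmul, hp, C.rs_v E.hF, C.rs_rs E.hF hf, smul_zero, add_zero]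

include E in
theorem c_rs {f : Fac N ι} (hf : C.good f) (hp : f.v p = F.v p) (x : N) :
    F.c ((f.res1 p).rs x) p = f.c x p := by
  rw [Fac.rs_res1, map_add, map_zsmul, hp, C.c_rs' E.hF hf, C.cv F E.hF]; simp

theorem zero_p {f : Fac N ι} (hf : C.good f) (hp : f.v p = F.v p) {x : N}
    (hx : x ∈ E.contract.V) (h0 : (f.res1 p).lev x = 0) : f.c x p = 0 := by
  have := E.bd f hf hp x (E.mem_contract.1 hx).1 (E.mem_contract.1 hx).2.2
    (ne_v hp (E.mem_contract.1 hx).2.1 fun l e => by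
      rw [e, E.contract.lev_v ⟨f, hf, hp, rfl⟩] at h0; omega)
  rw [h0, zero_add] at this
  exact abs_nonpos_iff.1 this

theorem lift_root {f : Fac N ι} (hf : C.good f) (hp : f.v p = F.v p) {x : N}
    (hx : x ∈ E.contract.V) {k l : {l // l ≠ p}}
    (h : (f.res1 p).c x = Pi.single k 1 - Pi.single l 1) :
    f.c x = Pi.single k.1 1 - Pi.single l.1 1 :=
  ext_res1 (p := p) (by
    rw [E.zero_p hf hp hx (by simp [Fac.lev, h, Finset.sum_sub_distrib])]
    simp [k.2.symm, l.2.symm]) (by rw [h, single_res1, single_res1]; rfl)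

theorem lift_pent {f : Fac N ι} (hf : C.good f) (hp : f.v p = F.v p) {l k : {l // l ≠ p}}
    (h : Pent E.contract (f.res1 p) l k) : Pent C f l.1 k.1 := by
  obtain ⟨hlk, a, ha, b, hb, n, hn, ca, cb, cn⟩ := h
  have hlk' : k.1 ≠ l.1 := fun e => hlk (Subtype.ext e)
  have ca' := E.lift_root hf hp ha ca
  refine ⟨hlk', a, (E.mem_contract.1 ha).1, b, (E.mem_contract.1 hb).1, n,
    (E.mem_contract.1 hn).1, ca', E.lift_root hf hp hb cb, ext_res1 (p := p) ?_
      (by rw [cn, single_res1]; rfl)⟩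
  obtain ⟨g, hg, hfl, -, -, e3, e4⟩ := C.step' hf hlk' (E.mem_contract.1 ha).1 ca'
  have a1 := e3 n p l.2.symm k.2.symm
  have a2 := E.zero_p hg (by rw [hfl.v_ne p l.2.symm, hp]) hn (by
    have b1 := e4 n
    rw [g.lev_res1 p, f.lev_res1 p, a1, ← f.res1_c, Fac.lev, Fac.lev, cn] at b1
    simpa [Fac.lev] using b1)
  rw [← a1, a2]; simp [l.2.symm]

theorem lift_pole {σ σ' : Type} [Fintype σ] [Fintype σ'] {L : LC C σ} {L' : LC E.contract σ'}
    {f : Fac N ι} (hf : C.good f) (hp : f.v p = F.v p) {l : {l // l ≠ p}} {s : σ} {s' : σ'}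
    {y : N} (h : Pole L' (f.res1 p) l s' y) (hK : L'.K s' = (L.K s).comap F.rs)
    (yp : f.c y p = 0) (ul : f.c E.u l.1 = 0) (us : f.rs E.u ∈ L.K s) : Pole L f l.1 s y := by
  obtain ⟨h1, h2, h3, h4⟩ := h
  have hy := E.mem_contract.1 h1
  refine ⟨hy.1, ext_res1 (p := p) (by simp [yp, l.2.symm]) (by rw [h2, single_res1]; rfl),
    fun x hx a1 a2 => ?_, fun x hx => ?_⟩
  · by_cases e1 : x = F.v p
    · rw [e1, ← hp, C.cv_apply hf, if_neg l.2]
    · by_cases e2 : x = E.u
      · rwa [e2]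
      · exact h3 x (E.mem_contract.2 ⟨hx, e1, e2⟩) a1 a2
  · by_cases e1 : x = F.v p
    · exact iff_of_false (by rw [e1, ← hp, C.rs_v hf]; simp) fun e => hy.2.1 (e ▸ e1)
    · by_cases e2 : x = E.u
      · exact iff_of_false (by rw [e2]; simpa using us) fun e => hy.2.2 (e ▸ e2)
      · rw [← h4 x (E.mem_contract.2 ⟨hx, e1, e2⟩), hK, AddSubgroup.mem_comap, E.rs_rs hf hp]

/-- the step of the induction for a line -/
theorem step (PF : ∀ g, C.good g → ∀ i p, ¬ Pent C g i p) {σ σ' : Type} [Fintype σ] [Fintype σ']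
    {L : LC C σ} {L' : LC E.contract σ'} (ih : Bd L')
    (H : ∀ f, C.good f → f.v p = F.v p → ∃ bad : {l // l ≠ p} → Prop,
      (∀ l s y, Pole L' (f.res1 p) l s y → ¬ bad l → ∃ s y, Pole L f l.1 s y) ∧
      (∀ l l' s y s' y', Pole L' (f.res1 p) l s y → Pole L' (f.res1 p) l' s' y' → bad l → bad l' →
        l = l') ∧ (Fintype.card σ ≤ Fintype.card σ' ∨ (Fintype.card σ ≤ Fintype.card σ' + 1 ∧
          (∀ l, ¬ bad l) ∧ ∃ s y, Pole L f p s y))) : Bd L := by
  obtain ⟨_, ⟨f, hf, hp, rfl⟩, hb⟩ := ih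
  obtain ⟨bad, b1, b2, b3⟩ := H f hf hp
  have h0 : splitSet E.contract (f.res1 p) = ∅ := Finset.eq_empty_of_forall_notMem fun l hl =>
    let ⟨_, hk⟩ := mem_splitSet.1 hl; PF f hf _ _ (E.lift_pent hf hp hk.1)
  have h1 : ∀ l ∈ spSet L' (f.res1 p), ∃ s y, Pole L' (f.res1 p) l s y := fun l hl =>
    (mem_spSet.1 hl).resolve_left fun ⟨_, _, h⟩ => PF f hf _ _ (E.lift_pent hf hp h.1)
  have key := fun T hT hT' => card_lift (A := spSet L' (f.res1 p)) (B := spSet L f) (T := T)
    Subtype.val Subtype.val_injective bad (fun l hl hb =>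
      let ⟨s, y, h⟩ := h1 l hl; mem_spSet.2 (Or.inr (b1 l s y h hb)))
    (fun l hl l' hl' => let ⟨s, y, h⟩ := h1 l hl; let ⟨s', y', h'⟩ := h1 l' hl'
      b2 l l' s y s' y' h h') hT hT'
  have c1 := E.card_le
  have c2 := card_slot p
  rw [h0, Finset.card_empty] at hb
  refine ⟨f, hf, ?_⟩
  rcases b3 with b3 | ⟨b3, b4, b5⟩
  · have := (key ∅ (empty_subset _) (by simp)).1
    rw [Finset.card_empty] at this
    omega
  · have := (key {p} (by simpa using mem_spSet.2 (Or.inr b5)) (fun l => by simpa using l.2)).2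
      fun l _ => b4 l
    rw [Finset.card_singleton] at this
    omega

end LD

variable {C : Cfg N ι} {σ : Type} [Fintype σ]

/-- a root which is the only vertex off a hyperplane, besides its partner -/
theorem leaf_step (PF : ∀ g, C.good g → ∀ i p, ¬ Pent C g i p) (L : LC C σ) {F : Fac N ι}
    (hF : C.good F) {j q : ι} (hq : q ≠ j) {u : N} (hu : u ∈ C.V)
    (cu : F.c u = Pi.single q 1 - Pi.single j 1)
    (h0 : ∀ x ∈ C.V, x ≠ F.v j → x ≠ u → F.c x j = 0)
    (ih : ∀ (C' : Cfg N {l // l ≠ j}) (L' : LC C' σ) (F' : Fac N _), C'.good F' → Bd L') :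
    Bd L := by
  classical
  have e0 : ∀ f, C.good f → f.c (F.v q) = f.c u + f.c (F.v j) := fun f hf => by
    rw [← map_add]
    exact C.c_eq_of_c_eq hF hf (by rw [map_add, cu, C.cv F hF, C.cv F hF]; abel)
  have same : ∀ f, C.good f → f.v j = F.v j → ∀ x, f.c x j = F.c x j := fun f hf hp =>
    C.c_same hF hf hp fun l hl => h0 _ (C.mem f hf l)
      (fun e => hl (C.v_inj hf (congrArg f.c (e.trans hp.symm)))) fun e => by
        have := C.lev_le_one hf (C.mem F hF q)
        rw [Fac.lev, e0 f hf, ← map_add, ← Fac.lev, Fac.lev_add, ← e, ← hp, C.lev_v hf,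
          C.lev_v hf] at this
        omega
  let E : LD C F j := ⟨hF, u, hu, fun f hf hp => by rw [same f hf hp, cu]; simp [hq.symm],
    fun f hf hp x hx a1 a2 => by
      have a3 : f.c x j = 0 := by rw [same f hf hp, h0 x hx (hp ▸ a2 j) a1]
      have := C.lev_le f hf x hx a2
      rw [f.lev_res1 j] at this
      rw [a3] at this ⊢
      simpa using this⟩
  have u0 : ∀ s, F.rs u ∈ L.K s :=
    L.mem_of_lev_zero hF hu (by simp [Fac.lev, cu, Finset.sum_sub_distrib])
  let L' : LC E.contract σ := ⟨fun s => (L.K s).comap F.rs, by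
      rintro _ ⟨f, hf, hp, rfl⟩ y hy hl
      rw [E.mem_contract] at hy
      have := L.star f hf y hy.1 (LD.ne_v hp hy.2.1 hl)
      rw [f.lev_res1 j, same f hf hp, h0 y hy.1 hy.2.1 hy.2.2, zero_add] at this
      simpa only [AddSubgroup.mem_comap, E.rs_rs hf hp] using this, fun s => by
      obtain ⟨y, hy, h⟩ := L.wit s F hF
      exact E.contract.wit_all E.contract_good (y := y) (E.mem_contract.2 ⟨hy, fun e => h (by
        rw [e, C.rs_v hF]; exact zero_mem _), fun e => h (e ▸ u0 s)⟩)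
        (by rwa [AddSubgroup.mem_comap, E.rs_rs hF rfl])⟩
  have zm : F.v q ∈ E.contract.V := E.contract.mem _ E.contract_good ⟨q, hq⟩
  refine E.step PF (ih _ L' _ E.contract_good) fun f hf hp =>
    ⟨fun l => f.c (F.v q) l.1 ≠ 0, fun l s y h hb => ⟨s, y, E.lift_pole hf hp h rfl ?_ ?_ ?_⟩,
      fun l l' s y s' y' h h' b b' => ?_, Or.inl le_rfl⟩
  · have := E.mem_contract.1 h.1
    rw [same f hf hp, h0 y this.1 this.2.1 this.2.2]
  · have := congrFun (e0 f hf) l.1
    rw [not_not.1 hb, Pi.add_apply, ← hp, C.cv_apply hf, if_neg l.2] at this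
    change f.c u l.1 = 0
    omega
  · have a1 : F.c (u - F.v q + F.v j) = 0 := by
      rw [map_add, map_sub, e0 F hF]; abel
    have a2 := Fac.rs_of_c (C.ker F f hF hf _ a1)
    rw [← Fac.rs_of_c a1, Fac.rs_of_c a1, map_add, map_sub, ← Fac.rs_of_c a1, map_add, map_sub,
      C.rs_v hF, C.rs_v hF, ← hp, C.rs_v hf, add_zero, add_zero, sub_zero,
      sub_eq_iff_eq_add] at a2
    change f.rs u ∈ _
    rw [a2]
    refine add_mem (u0 s) ?_
    by_contra hc
    have := (h.2.2.2 _ zm).1 (by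
      change _ ∉ (L.K s).comap F.rs
      rwa [AddSubgroup.mem_comap, E.rs_rs hf hp])
    have a3 := congrFun h.2.1 l
    rw [← this, Fac.res1_c, not_not.1 hb] at a3
    simp at a3
  · by_contra hne
    have a1 : F.v q = y ∨ F.v q = (f.res1 j).v l := by
      by_contra hc
      push Not at hc
      exact b (h.2.2.1 _ zm hc.1 hc.2)
    apply b'
    rw [← f.res1_c]
    rcases a1 with a1 | a1
    · rw [a1, h.2.1]; simp [Ne.symm hne]
    · rw [a1, E.contract.cv_apply ⟨f, hf, hp, rfl⟩, if_neg (Ne.symm hne)]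

/-- a charged antipode of a vertex -/
theorem pole_step (PF : ∀ g, C.good g → ∀ i p, ¬ Pent C g i p) (L : LC C σ) {F : Fac N ι}
    (hF : C.good F) {p : ι} {u : N} (hu : u ∈ C.V) (cu : F.c u = -Pi.single p 1) {s₀ : σ}
    (hs : F.rs u ∉ L.K s₀)
    (ih : ∀ (σ' : Type) [Fintype σ'] (C' : Cfg N {l // l ≠ p}) (L' : LC C' σ') (F' : Fac N _),
      C'.good F' → Bd L') : Bd L := by
  classical
  have cu' : ∀ f, C.good f → f.v p = F.v p → f.c u = -Pi.single p 1 := fun f hf hp => by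
    rw [← C.cv f hf, hp, ← map_neg]
    exact C.c_eq_of_c_eq hF hf (by rw [map_neg, cu, C.cv F hF])
  have ru : ∀ f, C.good f → f.v p = F.v p → f.rs u = u + F.v p := fun f hf hp => by
    simp [Fac.rs_apply, cu' f hf hp, Pi.single_apply, hp]
  have lu : ∀ f, C.good f → f.v p = F.v p → f.lev u = -1 := fun f hf hp => by
    simp [Fac.lev, cu' f hf hp]
  have su : ∀ f, C.good f → f.v p = F.v p → f.rs u ∉ L.K s₀ := fun f hf hp => by
    rwa [ru f hf hp, ← ru F hF rfl]
  have so : ∀ f, C.good f → f.v p = F.v p → ∀ s, s ≠ s₀ → f.rs u ∈ L.K s := fun f hf hp s h => by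
    by_contra hc
    exact h (L.eq_of_lev_neg_one hf hu (lu f hf hp) hc (su f hf hp))
  have st : ∀ f, C.good f → f.v p = F.v p → ∀ x ∈ C.V, x ≠ u → (∀ l, x ≠ f.v l) →
      ((univ.filter fun s => s ≠ s₀ ∧ f.rs x ∉ L.K s).card : ℤ) + |f.c x p| ≤
        -(f.res1 p).lev x := by
    intro f hf hp x hx a1 a2
    obtain ⟨g, hg, hfl⟩ := C.flip f hf p
    have e : u = g.v p := by
      by_contra hne
      have b1 := L.ts hf hg hfl hu (by simp [cu' f hf hp]) hne
      have b2 := L.ch_pos (su f hf hp)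
      simp only [LC.sv, lu f hf hp, cu' f hf hp, Pi.neg_apply, Pi.single_eq_same] at b1
      omega
    have b1 := L.star f hf x hx a2
    have b2 := L.star g hg x hx (Cfg.not_mem_flip' hfl a2 (e ▸ a1))
    rw [hfl.lev_eq, ← e, lu f hf hp] at b2
    rw [f.lev_res1 p] at b1 b2
    have b3 : (univ.filter fun s => s ≠ s₀ ∧ f.rs x ∉ L.K s).card ≤
        (univ.filter fun s => f.rs x ∉ L.K s).card :=
      Finset.card_le_card fun s hs => mem_filter.2 ⟨mem_univ _, (mem_filter.1 hs).2.2⟩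
    have b4 : (univ.filter fun s => s ≠ s₀ ∧ f.rs x ∉ L.K s).card ≤
        (univ.filter fun s => g.rs x ∉ L.K s).card :=
      Finset.card_le_card fun s hs => mem_filter.2 ⟨mem_univ _, by
        rw [C.rs_flip hf hg hfl, ← e, (L.K s).add_mem_cancel_right
          ((L.K s).zsmul_mem (so f hf hp s (mem_filter.1 hs).2.1) _)]
        exact (mem_filter.1 hs).2.2⟩
    rcases abs_cases (f.c x p) with h | h <;> omega
  let E : LD C F p := ⟨hF, u, hu, fun f hf hp => by simp [cu' f hf hp],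
    fun f hf hp x hx a1 a2 => by have := st f hf hp x hx a1 a2; omega⟩
  have wit : ∀ s, s ≠ s₀ → ∀ g, E.contract.good g →
      ∃ y ∈ E.contract.V, g.rs y ∉ (L.K s).comap F.rs := fun s h => by
    obtain ⟨y, hy, h'⟩ := L.wit s F hF
    exact E.contract.wit_all E.contract_good (y := y) (E.mem_contract.2 ⟨hy, fun e => h' (by
      rw [e, C.rs_v hF]; exact zero_mem _), fun e => h' (e ▸ so F hF rfl s h)⟩)
      (by rwa [AddSubgroup.mem_comap, E.rs_rs hF rfl])
  have lift : ∀ {σ' : Type} [Fintype σ'] (L' : LC E.contract σ') f, C.good f → f.v p = F.v p →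
      ∀ l s' y s, s ≠ s₀ → L'.K s' = (L.K s).comap F.rs → Pole L' (f.res1 p) l s' y →
      Pole L f l.1 s y := by
    intro σ' _ L' f hf hp l s' y s a1 hK h
    refine E.lift_pole hf hp h hK ?_ (by
      change f.c u l.1 = 0
      simp [cu' f hf hp, l.2]) (so f hf hp s a1)
    have hy := E.mem_contract.1 h.1
    have b1 := st f hf hp y hy.1 hy.2.2 (C.ne_v_of_neg hf (i := l.1) (by
      rw [← f.res1_c, h.2.1]; simp))
    have b2 := (h.2.2.2 y h.1).2 rfl
    rw [hK, AddSubgroup.mem_comap, E.rs_rs hf hp] at b2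
    have b3 : 0 < (univ.filter fun s => s ≠ s₀ ∧ f.rs y ∉ L.K s).card :=
      Finset.card_pos.2 ⟨s, mem_filter.2 ⟨mem_univ _, a1, b2⟩⟩
    have b4 : (f.res1 p).lev y = -1 := by simp [Fac.lev, h.2.1]
    exact abs_nonpos_iff.1 (by omega)
  by_cases hw : ∃ x ∈ E.contract.V, F.c x p ≠ 0 ∨ F.rs x ∉ L.K s₀
  · let T : AddSubgroup N := ((Pi.evalAddMonoidHom (fun _ => ℤ) p).comp F.c).ker
    have mT : ∀ x, x ∈ T ↔ F.c x p = 0 := fun x => Iff.rfl
    let L' : LC E.contract σ := ⟨fun s => if s = s₀ then (L.K s).comap F.rs ⊓ T else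
      (L.K s).comap F.rs, by
        rintro _ ⟨f, hf, hp, rfl⟩ y hy hl
        rw [E.mem_contract] at hy
        by_cases yp : f.c y p = 0
        · have := L.star f hf y hy.1 (LD.ne_v hp hy.2.1 hl)
          rw [f.lev_res1 p, yp, zero_add] at this
          refine le_trans (Int.ofNat_le.2 (Finset.card_le_card fun s hs => ?_)) this
          simp only [mem_filter, mem_univ, true_and] at hs ⊢
          split_ifs at hs
          · simpa [mT, E.c_rs hf hp, yp, E.rs_rs hf hp] using hs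
          · simpa [E.rs_rs hf hp] using hs
        · have b1 := st f hf hp y hy.1 hy.2.2 (LD.ne_v hp hy.2.1 hl)
          have b2 := abs_pos.2 yp
          have b3 := Finset.card_insert_le s₀ (univ.filter fun s => s ≠ s₀ ∧ f.rs y ∉ L.K s)
          refine le_trans (Int.ofNat_le.2 (Finset.card_le_card (t := insert s₀
            (univ.filter fun s => s ≠ s₀ ∧ f.rs y ∉ L.K s)) fun s hs => ?_)) (by omega)
          simp only [mem_filter, mem_univ, true_and, mem_insert] at hs ⊢
          split_ifs at hs with h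
          · exact Or.inl h
          · exact Or.inr ⟨h, by simpa [E.rs_rs hf hp] using hs⟩, fun s => by
        by_cases h : s = s₀
        · obtain ⟨x, hx, h'⟩ := hw
          refine E.contract.wit_all E.contract_good hx ?_
          rw [if_pos h, AddSubgroup.mem_inf, AddSubgroup.mem_comap, E.rs_rs hF rfl, mT,
            E.c_rs hF rfl, h]
          tauto
        · simpa only [if_neg h] using wit s h⟩
    refine E.step PF (ih σ _ L' _ E.contract_good) fun f hf hp =>
      ⟨fun l => ∃ y, Pole L' (f.res1 p) l s₀ y, fun l s y h hb => ?_,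
        fun l l' _ _ _ _ _ _ ⟨_, b⟩ ⟨_, b'⟩ => b.unique b', Or.inl le_rfl⟩
    have a1 : s ≠ s₀ := fun e => hb ⟨y, e ▸ h⟩
    exact ⟨s, y, lift L' f hf hp l s y s a1 (if_neg a1) h⟩
  · push Not at hw
    let L' : LC E.contract {s // s ≠ s₀} := ⟨fun s => (L.K s.1).comap F.rs, by
        rintro _ ⟨f, hf, hp, rfl⟩ y hy hl
        rw [E.mem_contract] at hy
        have b1 := st f hf hp y hy.1 hy.2.2 (LD.ne_v hp hy.2.1 hl)
        have b2 := abs_nonneg (f.c y p)
        refine le_trans (Int.ofNat_le.2 (Finset.card_le_card_of_injOn (t := univ.filter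
          fun s => s ≠ s₀ ∧ f.rs y ∉ L.K s) Subtype.val (fun s hs => ?_)
          Subtype.val_injective.injOn)) (by omega)
        simpa [s.2, E.rs_rs hf hp] using hs, fun s => wit s.1 s.2⟩
    refine E.step PF (ih _ _ L' _ E.contract_good) fun f hf hp =>
      ⟨fun _ => False, fun l s y h _ => ⟨s.1, y, lift L' f hf hp l s y s.1 s.2 rfl h⟩,
        fun _ _ _ _ _ _ _ _ b => b.elim, Or.inr ⟨(LD.card_slot s₀).ge, fun _ => id, s₀, u, hu,
          cu' f hf hp, fun x hx a1 a2 => ?_, fun x hx => ⟨fun h => ?_, fun e => e ▸ su f hf hp⟩⟩⟩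
    · rw [C.c_same hF hf hp fun l hl => (hw _ (E.contract.mem _ ⟨f, hf, hp, rfl⟩ ⟨l, hl⟩)).1]
      exact (hw x (E.mem_contract.2 ⟨hx, hp ▸ a2, a1⟩)).1
    · have b1 : ∀ x ∈ C.V, x ≠ u → F.rs x ∈ L.K s₀ := fun x hx a1 => by
        by_cases e : x = F.v p
        · rw [e, C.rs_v hF]; exact zero_mem _
        · exact (hw x (E.mem_contract.2 ⟨hx, e, a1⟩)).2
      by_contra a1
      exact h ((C.rs_mem hF hf (fun l => b1 _ (C.mem f hf l)
        (C.ne_v_of_neg hf (E.neg f hf hp) l).symm) x).2 (b1 x hx a1))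

end Pool.Agent.P.MP_a05398_ag
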