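import Pool.Agent.P.MP_a05398_ag.St.Line

/-! The contraction of the plane of a pentagon, and the induction. -/

set_option autoImplicit false
set_option linter.unusedSectionVars false
set_option linter.unusedSimpArgs false

open Finset

namespace Pool.Agent.P.MP_a05398_ag

variable {N ι : Type} [AddCommGroup N] [Fintype ι] [DecidableEq ι]

theorem Fac.rs_res (f : Fac N ι) {i p : ι} (h : p ≠ i) (x : N) :
    (f.res i p).rs x = f.rs x + f.c x i • f.v i + f.c x p • f.v p := by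
  have : ∑ l, f.c x l • f.v l = f.c x i • f.v i + f.c x p • f.v p +
      ∑ l : Rest i p, f.c x l.1 • f.v l.1 := by
    rw [← Finset.add_sum_erase _ _ (Finset.mem_univ i),
      ← Finset.add_sum_erase _ _ (show p ∈ univ.erase i by simp [h]), add_assoc]
    congr 2
    exact Finset.sum_subtype _ (fun x => by simp [and_comm]) fun l => f.c x l • f.v l
  rw [f.rs_apply, this, Fac.rs_apply]
  change x - ∑ l : Rest i p, f.c x l.1 • f.v l.1 = _
  abel

/-- the slots `i`, `p` carry a hexagon -/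
def Hex (C : Cfg N ι) (F : Fac N ι) (i p : ι) : Prop :=
  Pent C F i p ∧ ∃ m ∈ C.V, F.c m = -Pi.single p 1

theorem Hex.symm {C : Cfg N ι} {F : Fac N ι} {i p : ι} (h : Hex C F i p) : Hex C F p i := by
  obtain ⟨⟨h, a, ha, b, hb, n, hn, ca, cb, cn⟩, m, hm, cm⟩ := h
  exact ⟨⟨h.symm, b, hb, a, ha, m, hm, cb, ca, cm⟩, n, hn, cn⟩

/-- `g` is another frame of the hexagon -/
structure HF (C : Cfg N ι) (i p : ι) (f g : Fac N ι) : Prop where
  good : C.good g
  hex : Hex C g i p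
  vl : ∀ l, l ≠ i → l ≠ p → g.v l = f.v l
  cl : ∀ x l, l ≠ i → l ≠ p → g.c x l = f.c x l
  z : ∀ x, f.c x i = 0 → f.c x p = 0 → g.c x i = 0 ∧ g.c x p = 0

theorem HF.symm {C : Cfg N ι} {i p : ι} {f g : Fac N ι} (h : HF C i p f g) : HF C p i f g :=
  ⟨h.good, h.hex.symm, fun l a b => h.vl l b a, fun x l a b => h.cl x l b a,
    fun x a b => (h.z x b a).symm⟩

theorem HF.trans {C : Cfg N ι} {i p : ι} {f g k : Fac N ι} (h : HF C i p f g) (h' : HF C i p g k) :
    HF C i p f k :=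
  ⟨h'.good, h'.hex, fun l a b => (h'.vl l a b).trans (h.vl l a b),
    fun x l a b => (h'.cl x l a b).trans (h.cl x l a b),
    fun x a b => h'.z x (h.z x a b).1 (h.z x a b).2⟩

theorem HF.res {C : Cfg N ι} {i p : ι} {f g : Fac N ι} (h : HF C i p f g) :
    g.res i p = f.res i p := by
  unfold Fac.res
  congr 1
  · exact funext fun l => h.vl l.1 l.2.1 l.2.2
  · exact AddMonoidHom.ext fun x => funext fun l => h.cl x l.1 l.2.1 l.2.2

theorem Hex.rot {C : Cfg N ι} {f : Fac N ι} {i p : ι} (hf : C.good f) (h : Hex C f i p) :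
    ∃ g, HF C i p f g ∧ ∀ x, g.c x i = -f.c x i ∧ g.c x p = f.c x p + f.c x i := by
  obtain ⟨⟨hp, a, ha, b, hb, n, hn, ca, cb, cn⟩, m, hm, cm⟩ := h
  obtain ⟨g, hg, hfl, -, e2, e3, -⟩ := C.step' hf hp ha ca
  have ext : ∀ {x : N} {v : ι → ℤ}, -f.c x i = v i → f.c x p + f.c x i = v p →
      (∀ l, l ≠ i → l ≠ p → f.c x l = v l) → g.c x = v := fun {x v} a b c =>
    funext fun l => by
      by_cases h1 : l = i
      · rw [h1, hfl.c_self, a]
      · by_cases h2 : l = p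
        · rw [h2, e2, b]
        · rw [e3 x l h1 h2, c l h1 h2]
  refine ⟨g, ⟨hg, ⟨⟨hp, f.v i, C.mem f hf i, n, hn, b, hb, ?_, ?_, ?_⟩, m, hm, ?_⟩,
    fun l a _ => hfl.v_ne l a, e3, fun x a b => by simp [hfl.c_self, e2, a, b]⟩,
    fun x => ⟨hfl.c_self x, e2 x⟩⟩
  · exact ext (by simp [C.cv f hf, hp.symm]) (by simp [C.cv f hf, hp])
      fun l a b => by simp [C.cv f hf, a, b]
  · exact ext (by simp [cn, hp.symm]) (by simp [cn, hp]) fun l a b => by simp [cn, a, b]
  · exact ext (by simp [cb, hp.symm]) (by simp [cb, hp, hp.symm]) fun l a b => by simp [cb, a, b]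
  · exact ext (by simp [cm, hp.symm]) (by simp [cm, hp.symm]) fun l a b => by simp [cm]

theorem Hex.norm {C : Cfg N ι} {f : Fac N ι} {i p : ι} (hf : C.good f) (h : Hex C f i p) (y : N)
    (hy : ¬ (f.c y i = 0 ∧ f.c y p = 0)) : ∃ g, HF C i p f g ∧ 1 ≤ g.c y i + g.c y p := by
  obtain ⟨g1, H1, e1⟩ := h.rot hf
  obtain ⟨g2, H2, e2⟩ := h.symm.rot hf
  obtain ⟨g3, H3, e3⟩ := H1.hex.symm.rot H1.good
  obtain ⟨g4, H4, e4⟩ := H2.hex.symm.rot H2.good
  have a1 := e1 y
  have a2 := e2 y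
  have a3 := e3 y
  have a4 := e4 y
  by_cases c1 : 1 ≤ f.c y p
  · exact ⟨g1, H1, by omega⟩
  by_cases c2 : 1 ≤ f.c y i
  · exact ⟨g2, H2.symm, by omega⟩
  by_cases c3 : f.c y i ≤ -1
  · exact ⟨g3, H1.trans H3.symm, by omega⟩
  · exact ⟨g4, H2.symm.trans H4, by omega⟩

namespace PD
variable {C : Cfg N ι} {F : Fac N ι} {i p : ι} (P : PD C F i p) {σ : Type} [Fintype σ]
  (L : LC C σ)

include P in
theorem pent : Pent C F i p := ⟨P.ne, P.a, P.ha, P.b, P.hb, P.n, P.hn, P.ca, P.cb, P.cn⟩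

/-- the same pentagon seen from another facet -/
def rebase {f : Fac N ι} (H : Over C F i p f) : PD C f i p :=
  ⟨H.good, P.ne, P.a, P.b, P.n, P.ha, P.hb, P.hn, (P.oc H P.pl_a).trans P.ca,
    (P.oc H P.pl_b).trans P.cb, (P.oc H P.pl_n).trans P.cn⟩

include P in
theorem pl_iff {f : Fac N ι} (H : Over C F i p f) (x : N) : Pl f i p x ↔ Pl F i p x :=
  ⟨H.pl P.ne (Over.refl P.hF i p), (Over.refl P.hF i p).pl P.ne H⟩

theorem frame_rs {f g : Fac N ι} (hf : C.good f) {u u' : N} {A B A' B' : ℤ}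
    (Hg : Frame C i p f g u u' A B A' B') {K : AddSubgroup N} (hu : f.rs u ∈ K)
    (hu' : f.rs u' ∈ K) (x : N) : g.rs x ∈ K ↔ f.rs x ∈ K :=
  C.rs_mem hf Hg.good (fun l => by
    by_cases a1 : l = i
    · rwa [a1, Hg.vi]
    · by_cases a2 : l = p
      · rwa [a2, Hg.vp]
      · rw [Hg.vl l a1 a2, C.rs_v hf]; exact zero_mem _) x

include P in
theorem planar_rs {x : N} (hx : x ∈ C.V) (hp : Pl F i p x) (s : σ) : F.rs x ∈ L.K s := by
  have H := Over.refl P.hF i p
  have hne := P.ne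
  have Za := L.mem_of_lev_zero P.hF P.ha (by simp [Fac.lev, P.ca, Finset.sum_sub_distrib]) s
  have Zb := L.mem_of_lev_zero P.hF P.hb (by simp [Fac.lev, P.cb, Finset.sum_sub_distrib]) s
  have Zv : ∀ l, F.rs (F.v l) ∈ L.K s := fun l => by rw [C.rs_v P.hF]; exact zero_mem _
  have h0 : (F.res i p).lev x = 0 := Finset.sum_eq_zero fun l _ => hp l.1 l.2.1 l.2.2
  rcases P.planar hx hp with h | h | h | h | h | h
  · exact h ▸ Zv i
  · exact h ▸ Zv p
  · exact h ▸ Za
  · exact h ▸ Zb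
  · obtain ⟨g, Hg⟩ := P.frame1 H
    refine (frame_rs P.hF Hg Za (Zv p) x).1 (L.mem_of_lev_zero Hg.good hx ?_ s)
    rw [Hg.lev hne, h0, h, P.cn]; simp [hne]
  · obtain ⟨g, Hg⟩ := P.frame5 H
    refine (frame_rs P.hF Hg (Zv i) Zb x).1 (L.mem_of_lev_zero Hg.good hx ?_ s)
    rw [Hg.lev hne, h0, h]; simp [hne.symm]

include P in
theorem ch_frame {g : Fac N ι} {u u' : N} {A B A' B' : ℤ} (Hg : Frame C i p F g u u' A B A' B')
    (hu : Pl F i p u) (hu' : Pl F i p u') (y : N) : L.ch g y = L.ch F y := by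
  unfold LC.ch
  congr 1
  ext s
  simp only [mem_filter, mem_univ, true_and]
  rw [frame_rs P.hF Hg (P.planar_rs L (Hg.vi ▸ C.mem g Hg.good i) hu s)
    (P.planar_rs L (Hg.vp ▸ C.mem g Hg.good p) hu' s)]

include P in
theorem st_frame {g : Fac N ι} {u u' : N} {A B A' B' : ℤ} (Hg : Frame C i p F g u u' A B A' B')
    (hu : Pl F i p u) (hu' : Pl F i p u') {y : N} (hy : y ∈ C.V) (hy' : ¬ Pl F i p y)
    (hl : ∀ l : Rest i p, y ≠ (F.res i p).v l) :
    L.ch F y + (A + A') * F.c y i + (B + B') * F.c y p ≤ -(F.res i p).lev y := by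
  have := L.sv_nonneg Hg.good hy (frame_not_mem Hg hu hu' hy' hl)
  rw [LC.sv, P.ch_frame L Hg hu hu', Hg.lev P.ne] at this
  omega

include P in
theorem st_all {y : N} (hy : y ∈ C.V) (hy' : ¬ Pl F i p y)
    (hl : ∀ l : Rest i p, y ≠ (F.res i p).v l) :
    (L.ch F y + |F.c y i| ≤ -(F.res i p).lev y ∧ L.ch F y + F.c y p ≤ -(F.res i p).lev y) ∧
      ((∃ m ∈ C.V, F.c m = -Pi.single p 1) →
        L.ch F y - F.c y i - F.c y p ≤ -(F.res i p).lev y) := by
  have H := Over.refl P.hF i p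
  obtain ⟨g1, H1⟩ := P.frame1 H
  obtain ⟨g2, H2⟩ := P.frame2 H
  obtain ⟨g5, H5⟩ := P.frame5 H
  have l1 := P.st_frame L H1 P.pl_a P.pl_vp hy hy' hl
  have l2 := P.st_frame L H2 P.pl_a P.pl_n hy hy' hl
  have l5 := P.st_frame L H5 P.pl_vi P.pl_b hy hy' hl
  refine ⟨⟨by rcases abs_cases (F.c y i) with h | h <;> omega, by omega⟩, fun ⟨m, hm, cm⟩ => ?_⟩
  obtain ⟨g3, H3⟩ := P.frame3 H hm cm
  have l3 := P.st_frame L H3 (fun l h1 h2 => by simp [cm, h2]) P.pl_n hy hy' hl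
  omega

include P in
theorem rs_rs {f : Fac N ι} (H : Over C F i p f) (x : N) : F.rs ((f.res i p).rs x) = f.rs x := by
  rw [f.rs_res P.ne, map_add, map_add, map_zsmul, map_zsmul, H.vi, H.vp, C.rs_v P.hF, C.rs_v P.hF,
    C.rs_rs P.hF H.good, smul_zero, smul_zero, add_zero, add_zero]

include P in
theorem c_rs {f : Fac N ι} (H : Over C F i p f) (x : N) :
    F.c ((f.res i p).rs x) i = f.c x i ∧ F.c ((f.res i p).rs x) p = f.c x p := by
  rw [f.rs_res P.ne, map_add, map_add, map_zsmul, map_zsmul, H.vi, H.vp, C.c_rs' P.hF H.good,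
    C.cv F P.hF, C.cv F P.hF]
  simp [P.ne, P.ne.symm]

theorem lift_hex {l k : Rest i p} (h : Hex P.contract (F.res i p) l k) :
    Hex C F l.1 k.1 ∧ ∀ x ∈ P.contract.V, Pl (F.res i p) l k x → Pl F l.1 k.1 x := by
  obtain ⟨⟨hlk, a, ha, b, hb, n, hn, ca, cb, cn⟩, m, hm, cm⟩ := h
  have hlk' : k.1 ≠ l.1 := fun e => hlk (Subtype.ext e)
  have ca' := P.lift_ab hlk ha hb ca cb
  have cb' := P.lift_ab hlk.symm hb ha cb ca
  have ha' := (P.mem_contract.1 ha).1
  have hb' := (P.mem_contract.1 hb).1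
  have cn' := P.lift_n hlk ha' hn ca' cn
  have cm' := P.lift_n hlk.symm hb' hm cb' cm
  refine ⟨⟨⟨hlk', a, ha', b, hb', n, (P.mem_contract.1 hn).1, ca', cb', cn'⟩,
    m, (P.mem_contract.1 hm).1, cm'⟩, fun x hx' h1 => ?_⟩
  let Q : PD P.contract (F.res i p) l k := ⟨P.contract_good, hlk, a, b, n, ha, hb, hn, ca, cb, cn⟩
  intro j h2 h3
  rcases Q.planar hx' h1 with h | h | h | h | h | h
  · rw [h, Fac.res_v, C.cv_apply P.hF, if_neg h2]
  · rw [h, Fac.res_v, C.cv_apply P.hF, if_neg h3]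
  · rw [h]; change F.c a j = 0; simp [ca', h2, h3]
  · rw [h]; change F.c b j = 0; simp [cb', h2, h3]
  · rw [h]; change F.c n j = 0; simp [cn', h2]
  · rw [P.contract.inj P.contract_good hx' hm (h.trans cm.symm)]; simp [cm', h3]

theorem lift_YB {j k l : Rest i p} (h : YB P.contract (F.res i p) j k l) :
    YB C F j.1 k.1 l.1 := by
  obtain ⟨h1, h2, h3, h4, y, hy, cy, hs⟩ := h
  obtain ⟨⟨b1, b2⟩, b3⟩ := P.lift_hex ⟨h1, h2⟩
  have hy' := P.mem_contract.1 hy
  have hne := P.ne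
  have y0 : (F.res i p).lev y = 0 := by simp [Fac.lev, cy, Finset.sum_sub_distrib]
  obtain ⟨yi, yp⟩ := P.zero_glev (Over.refl P.hF i p) hy'.1 hy'.2 y0
  have yp0 : F.c y p = 0 := by
    refine yp.resolve_right fun ⟨yp, _⟩ => ?_
    obtain ⟨G, H5⟩ := P.frame5 (Over.refl P.hF i p)
    obtain ⟨G', hG', hf⟩ := C.flip G H5.good i
    have l0 : G.lev y = 0 := by rw [H5.lev hne, y0, yi]; ring
    have e := C.eq_flip_of_lev_zero H5.good hG' hf hy'.1 (by rw [H5.ci]; omega) l0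
    obtain ⟨hjk, a, ha, -, -, -, -, ca, -, -⟩ := b1
    have yj : G.c y j.1 = 1 := by
      rw [H5.cl y _ j.2.1 j.2.2, ← F.res_c, cy]; simp [h3.symm]
    have ai : G.c a i = 0 := by simp [H5.ci, ca, j.2.1.symm, j.2.2.symm, k.2.1.symm, k.2.2.symm]
    have ni : G.c P.n i = -1 := by simp [H5.ci, P.cn, hne]
    have e2 := C.lev_zero_unique hG' (i := j.1) P.hn ha
      (by rw [hf.c_ne _ _ j.2.1, ← e, ni, yj, H5.cl _ _ j.2.1 j.2.2, P.pl_n _ j.2.1 j.2.2]; omega)
      (by rw [hf.c_ne _ _ j.2.1, ai, H5.cl _ _ j.2.1 j.2.2, ca]; simp [hjk.symm])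
      (by
        rw [hf.lev_eq, ← e, l0, ni, H5.lev hne, show (F.res i p).lev P.n = 0 from
          Finset.sum_eq_zero fun l _ => P.pl_n l.1 l.2.1 l.2.2, P.cn]
        simp)
      (by
        have := F.lev_res hne a
        rw [hf.lev_eq, ai, H5.lev hne]
        simp [Fac.lev, ca, Finset.sum_sub_distrib, j.2.1.symm, j.2.2.symm, k.2.1.symm,
          k.2.2.symm] at this ⊢
        exact this.symm)
    rw [e2, ai] at ni
    omega
  refine ⟨b1, b2, fun e => h3 (Subtype.ext e), fun e => h4 (Subtype.ext e), y, hy'.1,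
    ext_res (i := i) (p := p) (by simp [yi, j.2.1.symm, l.2.1.symm])
      (by simp [yp0, j.2.2.symm, l.2.2.symm]) (by rw [map_sub, res_single, res_single]; exact cy),
    fun x hx => ?_⟩
  by_cases hp : Pl F i p x
  · exact Or.inl ⟨hp _ j.2.1 j.2.2, hp _ k.2.1 k.2.2, hp _ l.2.1 l.2.2⟩
  · have hx' := P.mem_contract.2 ⟨hx, hp⟩
    exact (hs x hx').imp_right fun h => h.imp_left (b3 x hx')

theorem lift_pole {l : Rest i p} {s : σ} {y : N} (hy : y ∈ P.contract.V)
    (cy : (F.res i p).c y = -Pi.single l 1)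
    (h3 : ∀ x ∈ P.contract.V, x ≠ y → x ≠ F.v l.1 → F.c x l.1 = 0)
    (h4 : ∀ x ∈ P.contract.V, F.rs x ∉ L.K s ↔ x = y) : Pole L F l.1 s y := by
  have hy' := P.mem_contract.1 hy
  have hl := P.contract.ne_v_of_neg P.contract_good (x := y) (i := l) (by simp [cy])
  have y1 : (F.res i p).lev y = -1 := by simp [Fac.lev, cy]
  obtain ⟨⟨a1, a2⟩, a3⟩ := P.st_all L hy'.1 hy'.2 hl
  have a4 := L.ch_pos ((h4 y hy).2 rfl)
  have yi : F.c y i = 0 := abs_nonpos_iff.1 (by omega)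
  have yp : F.c y p = 0 := by
    by_contra hc
    by_cases hm : ∃ m ∈ C.V, F.c m = -Pi.single p 1
    · have := a3 hm
      omega
    by_cases h2 : F.c y p = -1
    · refine P.no_sum hm hy'.1 (C.mem F P.hF l.1) hy'.2 (ext_res (i := i) (p := p) ?_ ?_ ?_)
      · simp [yi, C.cv F P.hF, P.ne.symm, l.2.1.symm]
      · simp [h2, C.cv F P.hF, l.2.2.symm]
      · rw [map_add, C.cv F P.hF, res_single]
        change (F.res i p).c y + _ = _
        rw [cy]
        funext j
        change _ = -(Pi.single (M := fun _ => ℤ) p 1 j.1)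
        simp [j.2.2]
    · obtain ⟨G, H5⟩ := P.frame5 (Over.refl P.hF i p)
      have := L.ts2 H5.good (i := i) hy'.1 (by rw [H5.ci]; omega)
      rw [LC.sv, H5.lev P.ne] at this
      omega
  refine ⟨hy'.1, ext_res (i := i) (p := p) (by simp [yi, l.2.1.symm]) (by simp [yp, l.2.2.symm])
    (by rw [map_neg, res_single]; exact cy), fun x hx b1 b2 => ?_, fun x hx => ?_⟩
  · by_cases hp : Pl F i p x
    · exact hp _ l.2.1 l.2.2
    · exact h3 x (P.mem_contract.2 ⟨hx, hp⟩) b1 b2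
  · by_cases hp : Pl F i p x
    · exact iff_of_false (not_not.2 (P.planar_rs L hx hp s)) fun e => hy'.2 (e ▸ hp)
    · exact h4 x (P.mem_contract.2 ⟨hx, hp⟩)

theorem new_pole (hm : ∃ m ∈ C.V, F.c m = -Pi.single p 1) {l : Rest i p} {y : N}
    (hy : y ∈ P.contract.V) (cy : (F.res i p).c y = -Pi.single l 1)
    (h3 : ∀ x ∈ P.contract.V, x ≠ y → x ≠ F.v l.1 → F.c x l.1 = 0)
    (h4 : ∀ x ∈ P.contract.V, x ≠ y → F.c x i = 0 ∧ F.c x p = 0)
    (h5 : 1 ≤ F.c y i + F.c y p) : ∃ j k, YB C F j k l.1 := by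
  have hy' := P.mem_contract.1 hy
  have hne := P.ne
  have y1 : (F.res i p).lev y = -1 := by simp [Fac.lev, cy]
  have y2 := C.lev_le_of_neg P.hF hy'.1 (i := l.1) (by rw [← F.res_c, cy]; simp)
  have y3 := F.lev_res hne y
  have yi : 0 ≤ F.c y i := by
    by_contra hc
    exact hy'.2 (C.lev_zero_unique P.hF (i := i) hy'.1 P.ha (by omega) (by simp [P.ca, hne.symm])
      (by omega) (by simp [Fac.lev, P.ca, Finset.sum_sub_distrib]) ▸ P.pl_a)
  have yp : 0 ≤ F.c y p := by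
    by_contra hc
    exact hy'.2 (C.lev_zero_unique P.hF (i := p) hy'.1 P.hb (by omega) (by simp [P.cb, hne])
      (by omega) (by simp [Fac.lev, P.cb, Finset.sum_sub_distrib]) ▸ P.pl_b)
  have blk : ∀ x ∈ C.V, (F.c x i = 0 ∧ F.c x p = 0 ∧ F.c x l.1 = 0) ∨ Pl F i p x ∨
      x = F.v l.1 ∨ x = y := fun x hx => by
    by_contra hc
    push Not at hc
    have hx' := P.mem_contract.2 ⟨hx, hc.2.1⟩
    exact hc.1 (h4 x hx' hc.2.2.2).1 (h4 x hx' hc.2.2.2).2 (h3 x hx' hc.2.2.2 hc.2.2.1)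
  have z : ∀ t, (t = i ∨ t = p) → resHom i p (Pi.single t (1 : ℤ)) = 0 := fun t ht => by
    funext k
    change Pi.single (M := fun _ => ℤ) t 1 k.1 = 0
    rcases ht with rfl | rfl
    · simp [k.2.1]
    · simp [k.2.2]
  have hx : Hex C F i p := ⟨P.pent, hm⟩
  by_cases h : F.c y i = 1
  · exact ⟨i, p, hx.1, hx.2, l.2.1, l.2.2, y, hy'.1, ext_res (i := i) (p := p)
      (by simp [h, l.2.1.symm]) (by simp [hne, l.2.2.symm]; omega)
      (by rw [map_sub, res_single, z i (Or.inl rfl), zero_sub]; exact cy), blk⟩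
  · refine ⟨p, i, hx.symm.1, hx.symm.2, l.2.2, l.2.1, y, hy'.1, ext_res (i := i) (p := p)
      (by simp [hne.symm, l.2.1.symm]; omega) (by simp [l.2.2.symm]; omega)
      (by rw [map_sub, res_single, z p (Or.inr rfl), zero_sub]; exact cy), fun x hx => ?_⟩
    rcases blk x hx with h | h | h
    · exact Or.inl ⟨h.2.1, h.1, h.2.2⟩
    · exact Or.inr (Or.inl fun t a b => h t b a)
    · exact Or.inr (Or.inr h)

theorem score_le {σ' : Type} [Fintype σ'] (L' : LC P.contract σ') {f g : Fac N ι}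
    (H : Over C F i p f) (Q : PD C g i p) (hres : g.res i p = f.res i p)
    (hs : ∀ l s' y, Pole L' (f.res i p) l s' y →
      (∃ s, L'.K s' = (L.K s).comap F.rs) ∨ ∃ j k, YB C g j k l.1)
    (T : Finset ι) (hT : T ⊆ splitSet C g) (hT' : ∀ t ∈ T, t = i ∨ t = p) :
    (splitSet P.contract (f.res i p)).card + (spSet L' (f.res i p)).card + T.card ≤
      (splitSet C g).card + (spSet L g).card := by
  have pl : ∀ x, Pl g i p x ↔ Pl f i p x := fun x =>
    forall_congr' fun l => forall_congr' fun a => forall_congr' fun b => by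
      rw [← g.res_c i p x ⟨l, a, b⟩, hres]; rfl
  have hV : P.contract.V = Q.contract.V := by
    ext x
    rw [P.mem_contract, Q.mem_contract, pl, P.pl_iff H]
  have h1 := Q.split_card_le T hT hT'
  have e1 : splitSet Q.contract (g.res i p) = splitSet P.contract (f.res i p) := by
    ext l
    simp only [mem_splitSet, Split, Pent, hV, hres]
  have h2 := (card_lift (A := spSet L' (f.res i p)) (B := spSet L g) (T := ∅) Subtype.val
    Subtype.val_injective (fun _ => False) (fun l hl _ => mem_spSet.2 (by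
      rcases mem_spSet.1 hl with ⟨j, k, h⟩ | ⟨s', y, h⟩
      · exact Or.inl ⟨j.1, k.1, Q.lift_YB (by simpa only [YB, Pent, hV, hres] using h)⟩
      · refine (hs l s' y h).symm.imp_right fun ⟨s, hK⟩ => ⟨s, y, ?_⟩
        obtain ⟨a1, a2, a3, a4⟩ := h
        rw [hV, ← hres] at a3
        rw [hV] at a1 a4
        refine Q.lift_pole L a1 (hres ▸ a2) a3 fun x hx => ?_
        rw [← a4 x hx, hK, AddSubgroup.mem_comap, P.rs_rs H, C.rs_mem H.good Q.hF fun t => ?_]
        by_cases b1 : t = i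
        · exact (P.rebase H).planar_rs L (C.mem g Q.hF t) ((pl _).1 (b1 ▸ Q.pl_vi)) s
        · by_cases b2 : t = p
          · exact (P.rebase H).planar_rs L (C.mem g Q.hF t) ((pl _).1 (b2 ▸ Q.pl_vp)) s
          · rw [← g.res_v i p ⟨t, b1, b2⟩, hres, Fac.res_v, C.rs_v H.good]
            exact zero_mem _)) (fun _ _ _ _ b => b.elim) (empty_subset _) (by simp)).2
    fun _ _ => id
  rw [e1] at h1
  rw [Finset.card_empty] at h2
  omega

theorem wit0 (s : σ) (g : Fac N (Rest i p)) (hg : P.contract.good g) :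
    ∃ y ∈ P.contract.V, g.rs y ∉ (L.K s).comap F.rs := by
  obtain ⟨y, hy, h⟩ := L.wit s F P.hF
  exact P.contract.wit_all P.contract_good (y := y)
    (P.mem_contract.2 ⟨hy, fun hp => h (P.planar_rs L hy hp s)⟩)
    (by rwa [AddSubgroup.mem_comap, P.rs_rs (Over.refl P.hF i p)]) g hg

/-- the old charges on the contracted system -/
noncomputable def lc0 : LC P.contract σ where
  K s := (L.K s).comap F.rs
  star := by
    rintro _ ⟨f, H, rfl⟩ y hy hl
    rw [P.mem_contract, ← P.pl_iff H] at hy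
    have h1 := ((P.rebase H).st_all L hy.1 hy.2 hl).1.1
    have h2 := abs_nonneg (f.c y i)
    have h3 : (L.ch f y : ℤ) ≤ -(f.res i p).lev y := by omega
    refine le_trans (le_of_eq (congrArg _ (congrArg _ ?_))) h3
    ext s
    simp only [mem_filter, AddSubgroup.mem_comap, P.rs_rs H]
  wit := P.wit0 L

/-- the points whose two coordinates vanish -/
def KK (F : Fac N ι) (i p : ι) : AddSubgroup N :=
  ((Pi.evalAddMonoidHom (fun _ => ℤ) i).comp F.c).ker ⊓
    ((Pi.evalAddMonoidHom (fun _ => ℤ) p).comp F.c).ker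

include P in
theorem mem_KK {f : Fac N ι} (H : Over C F i p f) (x : N) :
    (f.res i p).rs x ∈ KK F i p ↔ f.c x i = 0 ∧ f.c x p = 0 := by
  rw [← (P.c_rs H x).1, ← (P.c_rs H x).2]; rfl

/-- one new charge for a hexagon which does not split -/
noncomputable def lc1 (hm : ∃ m ∈ C.V, F.c m = -Pi.single p 1)
    (hw : ∀ g, P.contract.good g → ∃ y ∈ P.contract.V, g.rs y ∉ KK F i p) :
    LC P.contract (Option σ) where
  K s := s.elim (KK F i p) fun s => (L.K s).comap F.rs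
  star := by
    classical
    rintro _ ⟨f, H, rfl⟩ y hy hl
    rw [P.mem_contract, ← P.pl_iff H] at hy
    obtain ⟨⟨h1, h2⟩, h3⟩ := (P.rebase H).st_all L hy.1 hy.2 hl
    obtain ⟨m, hm, cm⟩ := hm
    have h4 := h3 ⟨m, hm, (P.oc H fun l _ b => by simp [cm, b]).trans cm⟩
    rw [Finset.card_filter, Fintype.sum_option, ← Finset.card_filter]
    simp only [Option.elim, AddSubgroup.mem_comap, P.rs_rs H, P.mem_KK H]
    unfold LC.ch at h1 h2 h4
    push_cast
    rcases abs_cases (f.c y i) with h | h <;> split_ifs <;> omega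
  wit := fun s => match s with
    | none => hw
    | some s => P.wit0 L s

theorem plane_step (ih : ∀ (σ' : Type) [Fintype σ'] (L' : LC P.contract σ'), Bd L') : Bd L := by
  have hc := card_rest P.ne
  by_cases hm : ∃ m ∈ C.V, F.c m = -Pi.single p 1
  swap
  · obtain ⟨_, ⟨f, H, rfl⟩, hb⟩ := ih σ (P.lc0 L)
    have h1 := P.score_le L (P.lc0 L) H (P.rebase H) rfl (fun l s y _ => Or.inl ⟨s, rfl⟩) ∅
      (empty_subset _) (by simp)
    have h5 := P.card_le_five hm
    exact ⟨f, H.good, by omega⟩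
  obtain ⟨m, hm', cm⟩ := id hm
  have h6 := P.card_le_six hm' cm
  have hex : ∀ f, Over C F i p f → Hex C f i p := fun f H =>
    ⟨(P.rebase H).pent, m, hm', (P.oc H fun l _ b => by simp [cm, b]).trans cm⟩
  by_cases hw : ∃ y ∈ P.contract.V, (F.res i p).rs y ∉ KK F i p
  · obtain ⟨y₀, hy₀, hw⟩ := hw
    set L' := P.lc1 L hm (P.contract.wit_all P.contract_good hy₀ hw) with hL
    obtain ⟨_, ⟨f, H, rfl⟩, hb⟩ := ih _ L'
    rw [Fintype.card_option] at hb
    by_cases hp : ∃ l y, Pole L' (f.res i p) l none y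
    · obtain ⟨l, y, h⟩ := hp
      have h4 : ∀ x ∈ P.contract.V, ¬ (f.c x i = 0 ∧ f.c x p = 0) ↔ x = y := fun x hx => by
        rw [← h.2.2.2 x hx, ← P.mem_KK H]; rfl
      obtain ⟨g, G, hg⟩ := (hex f H).norm H.good y ((h4 y h.1).2 rfl)
      obtain ⟨Q⟩ := G.hex.1.nonempty G.good
      have hV : ∀ x, x ∈ Q.contract.V ↔ x ∈ P.contract.V := fun x => by
        rw [P.mem_contract, Q.mem_contract, ← P.pl_iff H]
        exact and_congr_right' (not_congr (forall_congr' fun l => forall_congr' fun a =>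
          forall_congr' fun b => by rw [G.cl x l a b]))
      have h1 := P.score_le L L' H Q G.res (fun l' s' y' h' => by
        cases s' with
        | some s => exact Or.inl ⟨s, rfl⟩
        | none =>
          rw [h'.unique h]
          refine Or.inr (Q.new_pole G.hex.2 ((hV y).2 h.1) (G.res ▸ h.2.1) (fun x hx a b => ?_)
            (fun x hx a => ?_) hg)
          · rw [G.cl x _ l.2.1 l.2.2]
            exact h.2.2.1 x ((hV x).1 hx) a (by rwa [G.vl _ l.2.1 l.2.2] at b)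
          · have := not_not.1 (mt (h4 x ((hV x).1 hx)).1 a)
            exact G.z x this.1 this.2) ∅ (empty_subset _) (by simp)
      exact ⟨g, G.good, by omega⟩
    · have h1 := P.score_le L L' H (P.rebase H) rfl (fun l' s' y' h' => by
        cases s' with
        | some s => exact Or.inl ⟨s, rfl⟩
        | none => exact absurd ⟨l', y', h'⟩ hp) ∅ (empty_subset _) (by simp)
      exact ⟨f, H.good, by omega⟩
  · obtain ⟨_, ⟨f, H, rfl⟩, hb⟩ := ih σ (P.lc0 L)
    have hsp : Split C f i p := ⟨(hex f H).1, (hex f H).2, fun x hx => by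
      by_contra hc2
      push Not at hc2
      exact hw (P.contract.wit_all ⟨f, H, rfl⟩ (P.mem_contract.2 ⟨hx, mt (P.pl_iff H x).2 hc2.2⟩)
        (fun h => hc2.1 ((P.mem_KK H x).1 h).1 ((P.mem_KK H x).1 h).2) _ P.contract_good)⟩
    have h1 := P.score_le L (P.lc0 L) H (P.rebase H) rfl (fun l s y _ => Or.inl ⟨s, rfl⟩) {i, p}
      (fun t ht => by
        rcases Finset.mem_insert.1 ht with rfl | ht
        · exact mem_splitSet.2 ⟨p, hsp⟩
        · rw [Finset.mem_singleton.1 ht]; exact mem_splitSet.2 ⟨i, hsp.symm⟩) (by simp)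
    rw [Finset.card_pair P.ne.symm] at h1
    exact ⟨f, H.good, by omega⟩

end PD

theorem bd_all (r : ℕ) : ∀ (ι : Type) [Fintype ι] [DecidableEq ι] (C : Cfg N ι) (σ : Type)
    [Fintype σ] (L : LC C σ) (F₀ : Fac N ι), C.good F₀ → Fintype.card ι = r → Bd L := by
  induction r using Nat.strong_induction_on with
  | _ r ih =>
  intro ι _ _ C σ _ L F₀ h0 hr
  by_cases PF : ∀ g, C.good g → ∀ i p, ¬ Pent C g i p
  swap
  · push Not at PF
    obtain ⟨F, hF, i, p, h⟩ := PF
    obtain ⟨P⟩ := h.nonempty hF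
    have hc := card_rest P.ne
    exact P.plane_step L fun σ' _ L' => ih _ (by omega) _ _ σ' L' _ P.contract_good rfl
  have ih1 : ∀ (p : ι) (σ' : Type) [Fintype σ'] (C' : Cfg N {l // l ≠ p}) (L' : LC C' σ')
      (F' : Fac N _), C'.good F' → Bd L' := fun p σ' _ C' L' F' h =>
    ih _ (by have := LD.card_slot p; omega) _ C' σ' L' F' h rfl
  obtain ⟨F, hF, h⟩ := C.cone h0 (∑ x ∈ C.V, x) C.V.card (fun g hg => by
    have : g.lev (∑ x ∈ C.V, x) = ∑ x ∈ C.V, g.lev x := by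
      unfold Fac.lev
      rw [Finset.sum_comm, map_sum]
      simp [Finset.sum_apply]
    rw [this]
    simpa using Finset.sum_le_card_nsmul C.V g.lev 1 fun x hx => C.lev_le_one hg hx)
  let D : Chg C F Empty := ⟨fun s => s.elim, hF, fun s => s.elim, fun s => s.elim,
    fun f hf y hy hn => by
      have := C.lev_le f hf y hy hn
      simp only [univ_eq_empty, filter_empty, card_empty, Nat.cast_zero]
      omega⟩
  by_cases NC : ∀ p, ∀ y ∈ C.V, F.c y = -Pi.single p 1 → L.ch F y = 0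
  swap
  · push Not at NC
    obtain ⟨p, u, hu, cu, hc⟩ := NC
    obtain ⟨s, hs⟩ := Finset.card_ne_zero.1 hc
    exact pole_step PF L hF hu cu (by simpa using hs) (ih1 p)
  by_cases NL : ∀ j ∈ D.SS, ∃ x ∈ C.V, x ≠ F.v j ∧ x ≠ D.w j ∧ F.c x j ≠ 0
  swap
  · push Not at NL
    obtain ⟨j, hj, h'⟩ := NL
    exact leaf_step PF L hF (D.tg_ne hj) (D.w_mem j) (D.tg_c hj) h' (ih1 j σ)
  have := D.core' L (fun l => by simpa [map_sum, Finset.sum_apply] using h l) PF NC NL
  exact ⟨F, hF, by omega⟩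

end Pool.Agent.P.MP_a05398_ag
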