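import Pool.Agent.P.MP_a05398_ag.St.Fin

/-! A free summand of a smooth Fano polytope is a smooth Fano polytope. -/

set_option autoImplicit false
set_option linter.unusedSectionVars false
set_option linter.unusedSimpArgs false

open Finset

namespace Pool.Agent.P.MP_a05398_ag

variable {d e : ℕ}

/-- the real extension of a lattice homomorphism -/
def realExt (ψ : (Fin e → ℤ) →+ (Fin d → ℤ)) : (Fin e → ℝ) →ₗ[ℝ] (Fin d → ℝ) :=
  Matrix.mulVecLin (Matrix.of fun i k => (ψ (Pi.single k 1) i : ℝ))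

theorem realExt_cast (ψ : (Fin e → ℤ) →+ (Fin d → ℤ)) (x : Fin e → ℤ) :
    realExt ψ (fun k => (x k : ℝ)) = fun i => (ψ x i : ℝ) := funext fun i =>
  expand ((Int.castAddHom ℝ).comp ((Pi.evalAddMonoidHom (fun _ => ℤ) i).comp ψ)) x

theorem realExt_retr {ι : (Fin e → ℤ) →+ (Fin d → ℤ)} {π : (Fin d → ℤ) →+ (Fin e → ℤ)}
    (h : ∀ x, π (ι x) = x) (y : Fin e → ℝ) : realExt π (realExt ι y) = y := by
  have : (realExt π).comp (realExt ι) = LinearMap.id := by
    refine LinearMap.pi_ext' fun k => LinearMap.ext_ring ?_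
    have e1 : (Pi.single k (1 : ℝ) : Fin e → ℝ) =
        fun j => ((Pi.single k (1 : ℤ) : Fin e → ℤ) j : ℝ) := by
      funext j; by_cases hj : j = k <;> simp [hj]
    simp only [LinearMap.comp_apply, LinearMap.single_apply, LinearMap.id_apply]
    rw [e1, realExt_cast, realExt_cast, h]
  exact LinearMap.congr_fun this y

theorem basis_retr {ι : (Fin e → ℤ) →+ (Fin d → ℤ)} {π : (Fin d → ℤ) →+ (Fin e → ℤ)}
    (h : ∀ x, π (ι x) = x) (b : Module.Basis (Fin d) ℤ (Fin d → ℤ)) :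
    ∃ b' : Module.Basis (Fin e) ℤ (Fin e → ℤ), ∀ w, ι w ∈ Set.range b → w ∈ Set.range b' := by
  classical
  let I := {i : Fin d // ι (π (b i)) = b i}
  let r : (Fin e → ℤ) →ₗ[ℤ] (I → ℤ) :=
    LinearMap.pi fun i => (b.coord i.1).comp ι.toIntLinearMap
  let t : (I → ℤ) →ₗ[ℤ] (Fin e → ℤ) := Fintype.linearCombination ℤ fun i : I => π (b i.1)
  have ts : ∀ i : I, t (Pi.single i 1) = π (b i.1) := fun i => by simp [t]
  have rt : ∀ c, r (t c) = c := fun c => by
    have : r.comp t = LinearMap.id := LinearMap.pi_ext' fun i => LinearMap.ext_ring (by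
      funext j
      simp only [LinearMap.comp_apply, LinearMap.single_apply, LinearMap.id_apply, ts]
      change b.coord j.1 (ι (π (b i.1))) = _
      rw [i.2]
      by_cases e : j = i
      · simp [e]
      · simp [e, Finsupp.single_apply, show i.1 ≠ j.1 from fun a => e (Subtype.ext a.symm)])
    exact LinearMap.congr_fun this c
  let E : ((I → ℤ) × LinearMap.ker r) ≃ₗ[ℤ] (Fin e → ℤ) := LinearEquiv.ofBijective
    (t.coprod (LinearMap.ker r).subtype) ⟨by
      rw [injective_iff_map_eq_zero]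
      rintro ⟨c, z⟩ hz
      have h1 : t c + z.1 = 0 := hz
      have h2 := congrArg r h1
      rw [map_add, rt, z.2, add_zero, map_zero] at h2
      rw [h2, map_zero, zero_add] at h1
      exact Prod.ext h2 (Subtype.ext h1), fun x =>
      ⟨(r x, ⟨x - t (r x), by simp [rt]⟩), by simp⟩⟩
  let B := ((Pi.basisFun ℤ I).prod (Module.Free.chooseBasis ℤ (LinearMap.ker r))).map E
  refine ⟨B.reindex (B.indexEquiv (Pi.basisFun ℤ (Fin e))), fun w ⟨i, hi⟩ => ?_⟩
  rw [Module.Basis.range_reindex]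
  refine ⟨.inl ⟨i, by rw [hi, h]⟩, ?_⟩
  simp only [B, Module.Basis.map_apply, Module.Basis.prod_apply, Sum.elim_inl, Function.comp,
    Pi.basisFun_apply]
  change t (Pi.single _ 1) + 0 = w
  rw [ts, add_zero, hi, h]

theorem retr_fano {ι : (Fin e → ℤ) →+ (Fin d → ℤ)} {π : (Fin d → ℤ) →+ (Fin e → ℤ)}
    (h : ∀ x, π (ι x) = x) (he : 0 < e) {V : Finset (Fin d → ℤ)} {W : Finset (Fin e → ℤ)}
    (hW : ∀ w ∈ W, ι w ∈ V) (hV : ∀ v ∈ V, π v = 0 ∨ π v ∈ W)
    (h1 : (0 : Fin d → ℝ) ∈ interior (convexHull ℝ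
      ((fun (v : Fin d → ℤ) (i : Fin d) => (v i : ℝ)) '' (V : Set (Fin d → ℤ)))))
    (h2 : ∀ v ∈ V, (fun i : Fin d => (v i : ℝ)) ∉ convexHull ℝ
      ((fun (w : Fin d → ℤ) (i : Fin d) => (w i : ℝ)) ''
        ((V.erase v : Finset (Fin d → ℤ)) : Set (Fin d → ℤ))))
    (h3 : ∀ u : Fin d → ℝ, (∀ v ∈ V, ∑ i, u i * (v i : ℝ) ≤ 1) →
      ∃ b : Module.Basis (Fin d) ℤ (Fin d → ℤ),
        ∀ v ∈ V, ∑ i, u i * (v i : ℝ) = 1 → v ∈ Set.range b) :
    (0 : Fin e → ℝ) ∈ interior (convexHull ℝ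
      ((fun (v : Fin e → ℤ) (i : Fin e) => (v i : ℝ)) '' (W : Set (Fin e → ℤ)))) ∧
    (∀ v ∈ W, (fun i : Fin e => (v i : ℝ)) ∉ convexHull ℝ
      ((fun (w : Fin e → ℤ) (i : Fin e) => (w i : ℝ)) ''
        ((W.erase v : Finset (Fin e → ℤ)) : Set (Fin e → ℤ)))) ∧
    ∀ u : Fin e → ℝ, (∀ v ∈ W, ∑ i, u i * (v i : ℝ) ≤ 1) →
      ∃ b : Module.Basis (Fin e) ℤ (Fin e → ℤ),
        ∀ v ∈ W, ∑ i, u i * (v i : ℝ) = 1 → v ∈ Set.range b := by
  have pull : ∀ u : Fin e → ℝ, ∃ u' : Fin d → ℝ, ∀ v : Fin d → ℤ,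
      ∑ i, u' i * (v i : ℝ) = ∑ k, u k * (π v k : ℝ) := fun u => by
    let φ : (Fin d → ℤ) →+ ℝ :=
      { toFun := fun v => ∑ k, u k * (π v k : ℝ)
        map_zero' := by simp
        map_add' := fun x y => by simp [mul_add, Finset.sum_add_distrib] }
    exact ⟨fun i => φ (Pi.single i 1), expand φ⟩
  refine ⟨?_, fun w hw hc => h2 _ (hW w hw) ?_, fun u hu => ?_⟩
  · set K := convexHull ℝ ((fun (v : Fin e → ℤ) (i : Fin e) => (v i : ℝ)) '' (W : Set (Fin e → ℤ)))
    have pos : ∀ u : Fin e → ℝ, u ≠ 0 → ∃ w ∈ W, 0 < ∑ k, u k * (w k : ℝ) := fun u hu => by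
      obtain ⟨u', hu'⟩ := pull u
      obtain ⟨v, hv, hp⟩ := exists_pos_of_interior V h1 u' (by
        rintro rfl
        obtain ⟨k, hk⟩ := Function.ne_iff.1 hu
        have := hu' (ι (Pi.single k 1))
        simp [h, Pi.single_apply] at this
        exact hk this.symm)
      rw [hu'] at hp
      exact ⟨π v, (hV v hv).resolve_left fun e => by simp [e] at hp, hp⟩
    have zero : (0 : Fin e → ℝ) ∈ K := by
      by_contra hn
      obtain ⟨f, c, hf1, hf2⟩ := geometric_hahn_banach_point_closed (convex_convexHull ℝ _)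
        (Set.Finite.isClosed_convexHull ℝ (Set.toFinite _)) hn
      rw [map_zero] at hf1
      have key : ∀ y : Fin e → ℝ, ∑ k, (-f (Pi.single k 1)) * y k = -f y := by
        intro y
        conv_rhs => rw [pi_eq_sum_univ' y]
        rw [map_sum, ← Finset.sum_neg_distrib]
        refine Finset.sum_congr rfl fun k _ => ?_
        rw [map_smul, smul_eq_mul]; ring
      have hpos : ∀ w ∈ W, 0 < f (fun i => (w i : ℝ)) := fun w hw =>
        hf1.trans (hf2 _ (subset_convexHull ℝ _ ⟨w, hw, rfl⟩))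
      obtain ⟨v, hv, -⟩ := pos (Pi.single ⟨0, he⟩ 1) (by simp)
      obtain ⟨w, hw, h'⟩ := pos (fun k => -f (Pi.single k 1)) (fun h => by
        have := key (fun i => (v i : ℝ))
        rw [Finset.sum_eq_zero fun k _ => by rw [congrFun h k]; simp] at this
        linarith [hpos v hv])
      rw [key (fun i => (w i : ℝ))] at h'
      linarith [hpos w hw]
    have sub : convexHull ℝ ((fun (v : Fin d → ℤ) (i : Fin d) => (v i : ℝ)) ''
        (V : Set (Fin d → ℤ))) ⊆ realExt π ⁻¹' K := by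
      refine convexHull_min ?_ ((convex_convexHull ℝ _).linear_preimage _)
      rintro _ ⟨v, hv, rfl⟩
      rw [Set.mem_preimage, realExt_cast]
      rcases hV v hv with e | e
      · convert zero using 2
        simp [e]
      · exact subset_convexHull ℝ _ ⟨_, e, rfl⟩
    have hn := (realExt ι).continuous_of_finiteDimensional.continuousAt.preimage_mem_nhds
      (x := 0) (by rw [map_zero]; exact mem_interior_iff_mem_nhds.1 (interior_mono sub h1))
    rw [← Set.preimage_comp, show realExt π ∘ realExt ι = id from funext (realExt_retr h)] at hn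
    exact mem_interior_iff_mem_nhds.2 hn
  · rw [← realExt_cast]
    refine convexHull_min ?_ ((convex_convexHull ℝ _).linear_preimage (realExt ι)) hc
    rintro _ ⟨x, hx, rfl⟩
    rw [Set.mem_preimage, realExt_cast]
    have hx' := mem_erase.1 hx
    exact subset_convexHull ℝ _ ⟨ι x, mem_erase.2 ⟨fun e => hx'.1 (by rw [← h x, e, h]),
      hW x hx'.2⟩, rfl⟩
  · obtain ⟨u', hu'⟩ := pull u
    obtain ⟨b, hb⟩ := h3 u' fun v hv => by
      rw [hu']
      rcases hV v hv with e | e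
      · simp [e]
      · exact hu _ e
    obtain ⟨b', hb'⟩ := basis_retr h b
    exact ⟨b', fun w hw e => hb' w (hb _ (hW w hw) (by rw [hu', h, e]))⟩

end Pool.Agent.P.MP_a05398_ag
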